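import Pool.Agent.Lib.Sm.I.Uni

/-!
Project SMITH over `F_q(t)` (MP_48b749_nt), block I (paper I8): cancellation over `P ∈ X_ib`.

`ChebOdd` is the form of the Chebotarev theorem (block B) which is used in block I: class functions
of exponent `4` which change sign under an element of the commutator subgroup.
-/

set_option autoImplicit false

open Polynomial

namespace Pool.Agent.Sm

/-- Chebotarev with square root error for odd class functions of exponent `4`. `sg P` is a tame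
inertia generator and `ph P` a Frobenius element at the prime `P`. -/
def ChebOdd {k G : Type*} [Field k] [Group G] (NN : Set (Subgroup G)) (sg ph : k[X] → G)
    (q a C : ℕ) : Prop :=
  ∀ N : Subgroup G, N.Normal → (∃ N0 ∈ NN, N0 ≤ N) → (∀ s, s ^ 4 ∈ N) →
    ∀ f : G → ℝ, (∀ s, ∀ n ∈ N, f (s * n) = f s) → (∀ s t, f (t * s * t⁻¹) = f s) →
    (∀ s, |f s| ≤ 1) → (∃ g ∈ commutator G, ∀ s, f (s * g) = - f s) →
    ∀ d r : ℕ, 4 ∣ d →
    ∀ B : Finset k[X], (∀ P, P.Monic → Irreducible P → sg P ∉ N → P ∈ B) →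
    ∑ P ∈ B, P.natDegree ≤ r →
    ∀ E : Finset k[X],
      (∀ P, P ∈ E ↔ P.Monic ∧ Irreducible P ∧ P.natDegree = d ∧ sg P ∈ N) →
    |∑ P ∈ E, f (ph P)| ≤ C * ((N.index : ℝ) * (r + 1)) ^ a * (q : ℝ) ^ (d / 2)

/-- The index of a subgroup which separates at most `card A` classes. -/
theorem index_le_card {G A : Type*} [Group G] [Finite A] (N : Subgroup G) (F : G → A)
    (h : ∀ s t, F s = F t → s⁻¹ * t ∈ N) : N.index ≤ Nat.card A := by
  have hinj : Function.Injective (fun x : G ⧸ N => F x.out) := by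
    intro x y hxy
    have h1 := h _ _ hxy
    rw [← QuotientGroup.eq] at h1
    rwa [QuotientGroup.out_eq', QuotientGroup.out_eq'] at h1
  exact Nat.card_le_card_of_injective _ hinj

/-- The kernel of an additive character. -/
def kerχ {G : Type*} [Group G] (χ : G → ZMod 2) (h : ∀ s t, χ (s * t) = χ s + χ t) :
    Subgroup G where
  carrier := {s | χ s = 0}
  one_mem' := by
    have := h 1 1
    rw [mul_one] at this
    simpa using this
  mul_mem' := by
    intro a b ha hb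
    change χ (a * b) = 0
    rw [h, show χ a = 0 from ha, show χ b = 0 from hb, add_zero]
  inv_mem' := by
    intro a ha
    change χ a⁻¹ = 0
    have h1 : χ 1 = 0 := by
      have := h 1 1
      rw [mul_one] at this
      simpa using this
    have h2 := h a a⁻¹
    rw [mul_inv_cancel, h1, show χ a = 0 from ha, zero_add] at h2
    exact h2.symm

instance {G : Type*} [Group G] (χ : G → ZMod 2) (h : ∀ s t, χ (s * t) = χ s + χ t) :
    (kerχ χ h).Normal where
  conj_mem := by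
    intro n hn g
    change χ (g * n * g⁻¹) = 0
    have h1 : χ 1 = 0 := by
      have := h 1 1
      rw [mul_one] at this
      simpa using this
    have h2 := h g g⁻¹
    rw [mul_inv_cancel, h1] at h2
    rw [h, h, show χ n = 0 from hn, add_zero, ← h2]

theorem commutator_le_kerχ {G : Type*} [Group G] (χ : G → ZMod 2)
    (h : ∀ s t, χ (s * t) = χ s + χ t) : commutator G ≤ kerχ χ h := by
  rw [commutator_eq_closure, Subgroup.closure_le]
  rintro x ⟨s, t, rfl⟩
  change χ (s * t * s⁻¹ * t⁻¹) = 0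
  have h1 : χ 1 = 0 := by
    have := h 1 1
    rw [mul_one] at this
    simpa using this
  have hi : ∀ g, χ g + χ g⁻¹ = 0 := by
    intro g
    rw [← h, mul_inv_cancel, h1]
  rw [h, h, h]
  have : χ s + χ t + χ s⁻¹ + χ t⁻¹ = (χ s + χ s⁻¹) + (χ t + χ t⁻¹) := by abel
  rw [this, hi, hi, add_zero]

open Classical in
/-- Cancellation in the sum over the primes of degree `d` with prescribed symbols. -/
theorem mean_bound {k : Type*} [Field k] {ι G A E' : Type*} [Fintype ι] [DecidableEq ι]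
    [Nonempty ι] [Group G] [AddCommGroup A] [Module (ZMod 2) A] [Finite A] [Fintype E']
    {NN : Set (Subgroup G)} {sg ph : k[X] → G} {q a C : ℕ} (hC : ChebOdd NN sg ph q a C)
    (htop : ⊤ ∈ NN) (hinf : ∀ N ∈ NN, ∀ N' ∈ NN, N ⊓ N' ∈ NN)
    (U : E' → Uni ι G A) (hU : ∀ e, (U e).Is)
    (hUf : ∀ e, ∃ N ∈ NN, ∀ s, ∀ n ∈ N,
      (∀ i, (U e).dl i (s * n) = (U e).dl i s) ∧ ∀ T, (U e).Phi T (s * n) = (U e).Phi T s)
    (lam : A →+ ZMod 2) {b : ℕ} (χ : Fin b → G → ZMod 2)
    (hχ : ∀ j s t, χ j (s * t) = χ j s + χ j t)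
    (hχf : ∀ j, ∃ N ∈ NN, ∀ s, ∀ n ∈ N, χ j (s * n) = χ j s) (c : Fin b → ZMod 2)
    (e0 : E') (g0 : G) (σ : ι → G)
    (h1 : ∀ e i, (U e).dl i g0 = 0) (h2 : ∀ e i l, l ≠ i → (U e).dl l (σ i) = 0)
    (h3 : ∀ i, (U e0).dl i (σ i) = 1) (h4 : lam ((U e0).Phi ∅ g0) = 1)
    (h5 : ∀ e, e ≠ e0 → (∃ i, (U e).dl i (σ i) = 0) ∨ (U e).Phi ∅ g0 = 0)
    (d r : ℕ) (hd : 4 ∣ d) (B : Finset k[X])
    (hB : ∀ P, P.Monic → Irreducible P →
      ((∃ j, χ j (sg P) ≠ 0) ∨ (∃ e i, (U e).dl i (sg P) ≠ 0) ∨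
        ∃ e T, (U e).Phi T (sg P) ≠ 0) → P ∈ B)
    (hr : ∑ P ∈ B, P.natDegree ≤ r) (hBd : ∀ P ∈ B, P.natDegree ≠ d)
    (E : Finset k[X]) (hE : ∀ P, P ∈ E ↔ P.Monic ∧ Irreducible P ∧ P.natDegree = d) :
    |∑ P ∈ E with ∀ j, χ j (ph P) = c j, ∏ e, (U e).Kt lam (ph P)| ≤
      C * (2 ^ b * ((2 : ℝ) ^ Fintype.card ι *
        (Nat.card A : ℝ) ^ 2 ^ Fintype.card ι) ^ Fintype.card E' * (r + 1)) ^ a *
        (q : ℝ) ^ (d / 2) := by
  set N : Subgroup G := (⨅ j, kerχ (χ j) (hχ j)) ⊓ ⨅ e, (U e).K1 (hU e) with hN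
  have hNmem : ∀ s, s ∈ N ↔ (∀ j, χ j s = 0) ∧ ∀ e, s ∈ (U e).K1 (hU e) := by
    intro s
    rw [hN, Subgroup.mem_inf, Subgroup.mem_iInf, Subgroup.mem_iInf]
    rfl
  have hNn : N.Normal := by
    refine ⟨fun n hn g => ?_⟩
    rw [hNmem] at hn ⊢
    exact ⟨fun j => (inferInstance : (kerχ (χ j) (hχ j)).Normal).conj_mem n (hn.1 j) g,
      fun e => (Uni.K1_normal (U e) (hU e)).conj_mem n (hn.2 e) g⟩
  -- `N` contains an element of `NN`
  have hfin1 : ∀ (b' : ℕ) (f : Fin b' → Subgroup G), (∀ j, f j ∈ NN) →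
      ∃ N0 ∈ NN, ∀ j, N0 ≤ f j := by
    intro b'
    induction b' with
    | zero => intro f _; exact ⟨⊤, htop, fun j => j.elim0⟩
    | succ m ih =>
      intro f hf
      obtain ⟨N1, hN1, h⟩ := ih (fun j => f j.succ) (fun j => hf _)
      refine ⟨f 0 ⊓ N1, hinf _ (hf 0) _ hN1, fun j => ?_⟩
      refine Fin.cases inf_le_left (fun i => ?_) j
      exact inf_le_right.trans (h i)
  choose M1 hM1 hM1' using hUf
  choose M2 hM2 hM2' using hχf
  have hN0 : ∃ N0 ∈ NN, N0 ≤ N := by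
    obtain ⟨N2, hN2, h2'⟩ := hfin1 b M2 hM2
    obtain ⟨N1, hN1, h1'⟩ := hfin1 (Fintype.card E')
      (fun j => M1 ((Fintype.equivFin E').symm j)) (fun j => hM1 _)
    refine ⟨N2 ⊓ N1, hinf _ hN2 _ hN1, fun s hs => ?_⟩
    rw [hNmem]
    have hs2 : s ∈ N2 := hs.1
    have hs1 : s ∈ N1 := hs.2
    constructor
    · intro j
      have := hM2' j 1 s (h2' j hs2)
      rw [one_mul] at this
      rw [this]
      exact (kerχ (χ j) (hχ j)).one_mem
    · intro e
      have h3' : s ∈ M1 e := by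
        have := h1' (Fintype.equivFin E' e) hs1
        rwa [Equiv.symm_apply_apply] at this
      have h4' := hM1' e 1 s h3'
      rw [one_mul] at h4'
      refine ⟨fun i => ?_, fun T => ?_⟩
      · rw [h4'.1 i, (hU e).dl_one]
      · rw [h4'.2 T, (hU e).Phi_one]
  have hN4 : ∀ s, s ^ 4 ∈ N := by
    intro s
    rw [hNmem]
    refine ⟨fun j => ?_, fun e => (hU e).pow_four s⟩
    have h0 : ∀ x : ZMod 2, x + x + (x + x) = 0 := by decide
    have h2' : s ^ 4 = (s * s) * (s * s) := by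
      rw [show (4 : ℕ) = 2 + 2 from rfl, pow_add, pow_two]
    rw [h2', hχ, hχ]
    exact h0 _
  -- the class function
  let f : G → ℝ := fun s => (if ∀ j, χ j s = c j then 1 else 0) * ∏ e, (U e).Kt lam s
  have hχn : ∀ j s n, χ j n = 0 → χ j (s * n) = χ j s := by
    intro j s n hn
    rw [hχ, hn, add_zero]
  have hf1 : ∀ s, ∀ n ∈ N, f (s * n) = f s := by
    intro s n hn
    rw [hNmem] at hn
    change (if ∀ j, χ j (s * n) = c j then (1 : ℝ) else 0) * ∏ e, (U e).Kt lam (s * n) = _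
    have e1 : (∀ j, χ j (s * n) = c j) ↔ ∀ j, χ j s = c j := by
      refine forall_congr' fun j => ?_
      rw [hχn j s n (hn.1 j)]
    have e2 : ∀ e, (U e).Kt lam (s * n) = (U e).Kt lam s :=
      fun e => (hU e).Kt_K1 lam s (hn.2 e)
    simp only [e1, e2]
    rfl
  have hf2 : ∀ s t, f (t * s * t⁻¹) = f s := by
    intro s t
    change (if ∀ j, χ j (t * s * t⁻¹) = c j then (1 : ℝ) else 0) *
      ∏ e, (U e).Kt lam (t * s * t⁻¹) = _
    have e0' : ∀ j, χ j (t * s * t⁻¹) = χ j s := by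
      intro j
      have h1' : χ j 1 = 0 := (kerχ (χ j) (hχ j)).one_mem
      have h2' := hχ j t t⁻¹
      rw [mul_inv_cancel, h1'] at h2'
      rw [hχ, hχ]
      have : χ j t + χ j s + χ j t⁻¹ = (χ j t + χ j t⁻¹) + χ j s := by abel
      rw [this, ← h2', zero_add]
    have e2 : ∀ e, (U e).Kt lam (t * s * t⁻¹) = (U e).Kt lam s :=
      fun e => (hU e).Kt_conj lam s t
    simp only [e0', e2]
    rfl
  have hf3 : ∀ s, |f s| ≤ 1 := by
    intro s
    change |(if ∀ j, χ j s = c j then (1 : ℝ) else 0) * ∏ e, (U e).Kt lam s| ≤ 1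
    rw [abs_mul, Finset.abs_prod]
    have e1 : |if ∀ j, χ j s = c j then (1 : ℝ) else 0| ≤ 1 := by
      split_ifs <;> simp
    have e2 : ∏ e, |(U e).Kt lam s| ≤ 1 :=
      Finset.prod_le_one (fun e _ => abs_nonneg _) (fun e _ => Uni.Kt_abs _ _ _)
    exact mul_le_one₀ e1 (Finset.prod_nonneg fun e _ => abs_nonneg _) e2
  have hf4 : ∃ g ∈ commutator G, ∀ s, f (s * g) = - f s := by
    refine ⟨iterC g0 (Finset.univ.toList.map σ), Uni.iterC_mem g0 σ, fun s => ?_⟩
    set g := iterC g0 (Finset.univ.toList.map σ) with hg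
    have hgc : g ∈ commutator G := Uni.iterC_mem g0 σ
    have e1 : ∀ j, χ j (s * g) = χ j s :=
      fun j => hχn j s g (commutator_le_kerχ (χ j) (hχ j) hgc)
    have e2 : ∀ e, (U e).Kt lam (s * g) = (if e = e0 then -1 else 1) * (U e).Kt lam s := by
      intro e
      obtain ⟨e3, e4⟩ := (hU e).iter_univ (h1 e) (h2 e)
      rw [(hU e).Kt_mul lam s (g := g) e3, e4]
      congr 1
      by_cases he : e = e0
      · subst he
        rw [if_pos rfl, Finset.prod_eq_one (fun i _ => h3 i), one_smul, h4,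
          if_neg one_ne_zero]
      · rw [if_neg he]
        rcases h5 e he with ⟨i, hi⟩ | h6
        · rw [Finset.prod_eq_zero (Finset.mem_univ i) hi, zero_smul, map_zero, if_pos rfl]
        · rw [h6, smul_zero, map_zero, if_pos rfl]
    change (if ∀ j, χ j (s * g) = c j then (1 : ℝ) else 0) * ∏ e, (U e).Kt lam (s * g) =
      - ((if ∀ j, χ j s = c j then (1 : ℝ) else 0) * ∏ e, (U e).Kt lam s)
    simp only [e1, e2]
    rw [Finset.prod_mul_distrib, Finset.prod_ite_eq' Finset.univ e0]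
    simp
  have hBN : ∀ P : k[X], P.Monic → Irreducible P → sg P ∉ N → P ∈ B := by
    intro P hP1 hP2 hP3
    apply hB P hP1 hP2
    by_contra hh
    push Not at hh
    apply hP3
    rw [hNmem]
    exact ⟨hh.1, fun e => ⟨fun i => hh.2.1 e i, fun T => hh.2.2 e T⟩⟩
  have key := hC N hNn hN0 hN4 f hf1 hf2 hf3 hf4 d r hd B hBN hr E (by
    intro P
    rw [hE P]
    constructor
    · rintro ⟨p1, p2, p3⟩
      refine ⟨p1, p2, p3, ?_⟩
      by_contra p4
      exact hBd P (hBN P p1 p2 p4) p3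
    · rintro ⟨p1, p2, p3, -⟩
      exact ⟨p1, p2, p3⟩)
  have hsum : ∑ P ∈ E, f (ph P) =
      ∑ P ∈ E with ∀ j, χ j (ph P) = c j, ∏ e, (U e).Kt lam (ph P) := by
    rw [Finset.sum_filter]
    refine Finset.sum_congr rfl fun P _ => ?_
    change (if ∀ j, χ j (ph P) = c j then (1 : ℝ) else 0) * ∏ e, (U e).Kt lam (ph P) = _
    split_ifs <;> simp
  rw [hsum] at key
  refine key.trans ?_
  -- the index
  have hidx : (N.index : ℝ) ≤ 2 ^ b * ((2 : ℝ) ^ Fintype.card ι *
        (Nat.card A : ℝ) ^ 2 ^ Fintype.card ι) ^ Fintype.card E' := by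
    have h6 := index_le_card N
      (fun s => ((fun j => χ j s, fun e => (fun i => (U e).dl i s, fun T => (U e).Phi T s)) :
        (Fin b → ZMod 2) × (E' → (ι → ZMod 2) × (Finset ι → A)))) (by
      intro s t hst
      rw [Prod.ext_iff] at hst
      obtain ⟨e1, e2⟩ := hst
      rw [hNmem]
      refine ⟨fun j => ?_, fun e => ?_⟩
      · have e3 : χ j s = χ j t := congrFun e1 j
        have h1' : χ j 1 = 0 := (kerχ (χ j) (hχ j)).one_mem
        have h2' := hχ j s s⁻¹
        rw [mul_inv_cancel, h1'] at h2'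
        rw [hχ, ← e3, add_comm, ← h2']
      · have e3 := congrFun e2 e
        simp only [Prod.mk.injEq] at e3
        exact (hU e).mem_K1 (fun i => congrFun e3.1 i) (fun T => congrFun e3.2 T))
    rw [Nat.card_prod, Nat.card_fun, Nat.card_fun, Nat.card_prod, Nat.card_fun,
      Nat.card_fun] at h6
    simp only [Nat.card_eq_fintype_card, Fintype.card_fin, ZMod.card, Fintype.card_finset] at h6
    have h7 : ((N.index : ℕ) : ℝ) ≤ ((2 ^ b * (2 ^ Fintype.card ι *
        Nat.card A ^ 2 ^ Fintype.card ι) ^ Fintype.card E' : ℕ) : ℝ) := by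
      exact_mod_cast h6
    refine h7.trans (le_of_eq ?_)
    push_cast
    rfl
  gcongr

end Pool.Agent.Sm
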