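import Pool.Agent.Lib.SmA.Box

/-!
Project SMITH over `F_q(t)` (MP_48b749_nt), block I (paper I7): the box norm inequality for a
function `h (x') (x none)` on `∀ i : Option κ, X i`.
-/

set_option autoImplicit false

open Finset Pool.Agent.SmA

namespace Pool.Agent.Sm

variable {κ : Type*} [Fintype κ] [DecidableEq κ]

/-- The subsets of `Option κ`. -/
noncomputable def optPow (κ : Type*) [DecidableEq κ] : Bool × Finset κ ≃ Finset (Option κ) where
  toFun p := if p.1 then insertNone p.2 else p.2.map Function.Embedding.some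
  invFun V := (decide (none ∈ V), eraseNone V)
  left_inv := by
    rintro ⟨b, V⟩
    cases b
    · simp
    · simp
  right_inv := by
    intro V
    by_cases h : none ∈ V
    · ext x
      cases x <;> simp [h]
    · ext x
      cases x <;> simp [h]

variable {X : Option κ → Type*} [∀ i, Fintype (X i)]

/-- Sums over the points of `∀ i : Option κ, X i`. -/
theorem sum_opt (F : (∀ i, X i) → ℝ) :
    ∑ x, F x = ∑ P : X none, ∑ x' : ∀ i : κ, X (some i),
      F ((Equiv.piOptionEquivProd (β := X)).symm (P, x')) := by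
  rw [← Fintype.sum_prod_type']
  exact (Equiv.sum_comp (Equiv.piOptionEquivProd (β := X)).symm F).symm

theorem box_split (h : (∀ i : κ, X (some i)) → X none → ℝ) :
    ∑ a : ∀ i, X i, ∑ b : ∀ i, X i, ∏ V : Finset (Option κ),
      h (fun i => mix V a b (some i)) (mix V a b none) =
    ∑ a : ∀ i : κ, X (some i), ∑ b : ∀ i : κ, X (some i),
      (∑ P : X none, ∏ V : Finset κ, h (mix V a b) P) ^ 2 := by
  have key : ∀ a b : ∀ i, X i, ∏ V : Finset (Option κ),
      h (fun i => mix V a b (some i)) (mix V a b none) =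
      (∏ V : Finset κ, h (mix V (fun i => a (some i)) (fun i => b (some i))) (a none)) *
      ∏ V : Finset κ, h (mix V (fun i => a (some i)) (fun i => b (some i))) (b none) := by
    intro a b
    rw [← (optPow κ).prod_comp, Fintype.prod_prod_type, Fintype.prod_bool, mul_comm]
    congr 1
    · refine prod_congr rfl fun V _ => ?_
      have e1 : (fun i => mix (optPow κ (false, V)) a b (some i)) =
          mix V (fun i => a (some i)) (fun i => b (some i)) := by
        funext i
        simp [optPow, mix]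
      have e2 : mix (optPow κ (false, V)) a b none = a none := by
        simp [optPow, mix]
      rw [e1, e2]
    · refine prod_congr rfl fun V _ => ?_
      have e1 : (fun i => mix (optPow κ (true, V)) a b (some i)) =
          mix V (fun i => a (some i)) (fun i => b (some i)) := by
        funext i
        simp [optPow, mix]
      have e2 : mix (optPow κ (true, V)) a b none = b none := by
        simp [optPow, mix]
      rw [e1, e2]
  simp only [key]
  rw [sum_opt]
  have e3 : ∀ (P : X none) (x' : ∀ i : κ, X (some i)),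
      (Equiv.piOptionEquivProd (β := X)).symm (P, x') none = P := fun P x' => rfl
  have e4 : ∀ (P : X none) (x' : ∀ i : κ, X (some i)),
      (fun i => (Equiv.piOptionEquivProd (β := X)).symm (P, x') (some i)) = x' :=
    fun P x' => rfl
  simp only [e3, e4]
  rw [sum_comm]
  refine sum_congr rfl fun a _ => ?_
  have h1 : ∀ P : X none, ∑ b : ∀ i, X i,
      (∏ V : Finset κ, h (mix V a (fun i => b (some i))) P) *
        ∏ V : Finset κ, h (mix V a (fun i => b (some i))) (b none) =
      ∑ b' : ∀ i : κ, X (some i), ∑ Q : X none,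
        (∏ V : Finset κ, h (mix V a b') P) * ∏ V : Finset κ, h (mix V a b') Q := by
    intro P
    rw [sum_opt]
    simp only [e3, e4]
    rw [sum_comm]
  simp only [h1]
  rw [sum_comm]
  refine sum_congr rfl fun b _ => ?_
  rw [sq, sum_mul_sum]

omit [DecidableEq κ] in
/-- The number of points with a prescribed coordinate. -/
theorem card_coord {Y : κ → Type*} [∀ i, Fintype (Y i)] [DecidableEq κ] (i : κ) (c : Y i) :
    (Fintype.card (Y i) : ℝ) *
      (Finset.card (open Classical in univ.filter fun b : ∀ i, Y i => b i = c) : ℝ) =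
      Fintype.card (∀ i, Y i) := by
  classical
  have h := sum_update i (fun b : ∀ i, Y i => if b i = c then (1 : ℝ) else 0)
  simp only [Function.update_self, sum_boole] at h
  have h2 : ∀ b : ∀ i, Y i, ((#{x ∈ (univ : Finset (Y i)) | x = c} : ℕ) : ℝ) = 1 := by
    intro b
    rw [filter_eq' univ c, if_pos (mem_univ c), card_singleton, Nat.cast_one]
  rw [sum_congr rfl fun b _ => h2 b] at h
  simp only [sum_const, card_univ, nsmul_eq_mul, mul_one] at h
  rw [h]

/-- The box norm bound. -/
theorem gamma_bound [∀ i, Nonempty (X i)] (x0 : ∀ i : κ, X (some i))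
    (h : (∀ i : κ, X (some i)) → X none → ℝ)
    (hh : ∀ x P, |h x P| ≤ 1) (Bd : ℝ)
    (hBd : ∀ a b : ∀ i : κ, X (some i), (∀ i, a i ≠ b i ∧ a i ≠ x0 i ∧ b i ≠ x0 i) →
      |∑ P, ∏ V : Finset κ, h (mix V a b) P| ≤ Bd) (γ : ℝ) (hγ0 : 0 ≤ γ)
    (hγ : Bd ^ 2 / (Fintype.card (X none) : ℝ) ^ 2 +
      3 * ∑ i : κ, 1 / (Fintype.card (X (some i)) : ℝ) ≤ γ ^ 2 ^ (Fintype.card κ + 1))
    (g : Option κ → (∀ i, X i) → ℝ) (hg : ∀ j, Misses j (g j)) :
    |∑ x, h (fun i => x (some i)) (x none) * ∏ j, g j x| ≤
      γ * Fintype.card (∀ i, X i) := by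
  classical
  set S : ℝ := ∑ x, h (fun i => x (some i)) (x none) * ∏ j, g j x with hS
  have h1 := box_norm (fun x : ∀ i, X i => h (fun i => x (some i)) (x none)) g hg
  rw [box_split h, ← hS, Fintype.card_option] at h1
  set M : ℝ := (Fintype.card (∀ i, X i) : ℝ) with hM
  set M' : ℝ := (Fintype.card (∀ i : κ, X (some i)) : ℝ) with hM'
  set m : ℝ := (Fintype.card (X none) : ℝ) with hm
  have hMm : M = m * M' := by
    rw [hM, hM', hm, Fintype.card_congr (Equiv.piOptionEquivProd (β := X)), Fintype.card_prod]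
    push_cast
    rfl
  have hm0 : 0 < m := by
    rw [hm]
    exact_mod_cast Fintype.card_pos
  have hM'0 : 0 < M' := by
    rw [hM']
    exact_mod_cast Fintype.card_pos
  have hM0 : 0 < M := by rw [hMm]; positivity
  -- the sum over the pairs
  have hbad : ∀ (i : κ) (c : X (some i)),
      ((#{b : ∀ i : κ, X (some i) | b i = c} : ℕ) : ℝ) =
        M' / (Fintype.card (X (some i)) : ℝ) := by
    intro i c
    have h2 := card_coord (Y := fun i : κ => X (some i)) i c
    have h3 : (0 : ℝ) < Fintype.card (X (some i)) := by exact_mod_cast Fintype.card_pos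
    rw [eq_div_iff h3.ne', mul_comm, hM', ← h2]
  have hQ : ∀ a b : ∀ i : κ, X (some i), ∀ P, |∏ V : Finset κ, h (mix V a b) P| ≤ 1 := by
    intro a b P
    rw [abs_prod]
    exact prod_le_one (fun _ _ => abs_nonneg _) (fun _ _ => hh _ _)
  have hQ2 : ∀ a b : ∀ i : κ, X (some i),
      (∑ P, ∏ V : Finset κ, h (mix V a b) P) ^ 2 ≤ m ^ 2 := by
    intro a b
    rw [← sq_abs]
    have h2 : |∑ P, ∏ V : Finset κ, h (mix V a b) P| ≤ m := by
      refine (abs_sum_le_sum_abs _ _).trans ?_
      refine (sum_le_sum fun P _ => hQ a b P).trans (le_of_eq ?_)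
      rw [sum_const, card_univ, nsmul_eq_mul, mul_one, hm]
    gcongr
  have hpair : ∀ a b : ∀ i : κ, X (some i),
      (∑ P, ∏ V : Finset κ, h (mix V a b) P) ^ 2 ≤
        Bd ^ 2 + m ^ 2 * ∑ i : κ, ((if a i = b i then 1 else 0) + (if a i = x0 i then 1 else 0) +
          (if b i = x0 i then 1 else 0)) := by
    intro a b
    have hnn : ∀ i : κ, (0 : ℝ) ≤ (if a i = b i then 1 else 0) +
        (if a i = x0 i then 1 else 0) + (if b i = x0 i then 1 else 0) := by
      intro i
      split_ifs <;> norm_num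
    by_cases hnd : ∀ i, a i ≠ b i ∧ a i ≠ x0 i ∧ b i ≠ x0 i
    · have h2 := hBd a b hnd
      have h3 : (∑ P, ∏ V : Finset κ, h (mix V a b) P) ^ 2 ≤ Bd ^ 2 := by
        rw [← sq_abs]
        have := abs_nonneg (∑ P, ∏ V : Finset κ, h (mix V a b) P)
        gcongr
      refine h3.trans (le_add_of_nonneg_right ?_)
      exact mul_nonneg (sq_nonneg _) (sum_nonneg fun i _ => hnn i)
    · push Not at hnd
      obtain ⟨i, hi⟩ := hnd
      have h4 : (1 : ℝ) ≤ ∑ i : κ, ((if a i = b i then 1 else 0) +
          (if a i = x0 i then 1 else 0) + (if b i = x0 i then 1 else 0)) := by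
        refine le_trans ?_ (single_le_sum (fun i _ => hnn i) (mem_univ i))
        by_cases e1 : a i = b i
        · rw [if_pos e1]
          split_ifs <;> norm_num
        · by_cases e2 : a i = x0 i
          · rw [if_pos e2]
            split_ifs <;> norm_num
          · rw [if_pos (hi e1 e2)]
            split_ifs <;> norm_num
      calc (∑ P, ∏ V : Finset κ, h (mix V a b) P) ^ 2 ≤ m ^ 2 := hQ2 a b
        _ = 0 + m ^ 2 * 1 := by ring
        _ ≤ _ := by gcongr; positivity
  have htot : ∑ a : ∀ i : κ, X (some i), ∑ b : ∀ i : κ, X (some i),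
      (∑ P : X none, ∏ V : Finset κ, h (mix V a b) P) ^ 2 ≤
      M ^ 2 * (Bd ^ 2 / m ^ 2 + 3 * ∑ i : κ, 1 / (Fintype.card (X (some i)) : ℝ)) := by
    refine (sum_le_sum fun a _ => sum_le_sum fun b _ => hpair a b).trans (le_of_eq ?_)
    have c1 : ∀ i : κ, ∑ a : ∀ i : κ, X (some i), ∑ b : ∀ i : κ, X (some i),
        (if a i = b i then (1 : ℝ) else 0) = M' * (M' / (Fintype.card (X (some i)) : ℝ)) := by
      intro i
      have : ∀ a : ∀ i : κ, X (some i), ∑ b : ∀ i : κ, X (some i),
          (if a i = b i then (1 : ℝ) else 0) = M' / (Fintype.card (X (some i)) : ℝ) := by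
        intro a
        rw [← hbad i (a i), sum_boole]
        congr! 3
        exact eq_comm
      simp only [this, sum_const, card_univ, nsmul_eq_mul]
      rw [hM']
    have c2 : ∀ i : κ, ∑ a : ∀ i : κ, X (some i), ∑ _b : ∀ i : κ, X (some i),
        (if a i = x0 i then (1 : ℝ) else 0) = M' * (M' / (Fintype.card (X (some i)) : ℝ)) := by
      intro i
      rw [sum_comm]
      simp only [sum_boole, hbad, sum_const, card_univ, nsmul_eq_mul]
      rw [hM']
    have c3 : ∀ i : κ, ∑ _a : ∀ i : κ, X (some i), ∑ b : ∀ i : κ, X (some i),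
        (if b i = x0 i then (1 : ℝ) else 0) = M' * (M' / (Fintype.card (X (some i)) : ℝ)) := by
      intro i
      simp only [sum_boole, hbad, sum_const, card_univ, nsmul_eq_mul]
      rw [hM']
    have c4 : ∑ a : ∀ i : κ, X (some i), ∑ b : ∀ i : κ, X (some i),
        ∑ i : κ, ((if a i = b i then (1 : ℝ) else 0) + (if a i = x0 i then 1 else 0) +
          (if b i = x0 i then 1 else 0)) =
        ∑ i : κ, 3 * (M' * (M' / (Fintype.card (X (some i)) : ℝ))) := by
      have : ∀ a : ∀ i : κ, X (some i), ∑ b : ∀ i : κ, X (some i),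
          ∑ i : κ, ((if a i = b i then (1 : ℝ) else 0) + (if a i = x0 i then 1 else 0) +
            (if b i = x0 i then 1 else 0)) =
          ∑ i : κ, ∑ b : ∀ i : κ, X (some i), ((if a i = b i then (1 : ℝ) else 0) +
            (if a i = x0 i then 1 else 0) + (if b i = x0 i then 1 else 0)) :=
        fun a => sum_comm
      rw [sum_congr rfl fun a _ => this a, sum_comm]
      refine sum_congr rfl fun i _ => ?_
      simp only [sum_add_distrib]
      have d1 := c1 i
      have d2 := c2 i
      have d3 := c3 i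
      rw [d1, d2, d3]
      ring
    have c5 : ∑ a : ∀ i : κ, X (some i), ∑ b : ∀ i : κ, X (some i), (Bd ^ 2 + m ^ 2 *
        ∑ i : κ, ((if a i = b i then (1 : ℝ) else 0) + (if a i = x0 i then 1 else 0) +
          (if b i = x0 i then 1 else 0))) =
        M' * (M' * Bd ^ 2) + m ^ 2 * ∑ i : κ, 3 * (M' * (M' / (Fintype.card (X (some i)) : ℝ))) := by
      rw [← c4]
      simp only [sum_add_distrib, sum_const, card_univ, nsmul_eq_mul, ← mul_sum]
      rw [hM']
    rw [c5, hMm]
    have c6 : ∑ i : κ, 3 * (M' * (M' / (Fintype.card (X (some i)) : ℝ))) =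
        M' ^ 2 * (3 * ∑ i : κ, 1 / (Fintype.card (X (some i)) : ℝ)) := by
      rw [mul_sum, mul_sum]
      refine sum_congr rfl fun i _ => ?_
      ring
    rw [c6]
    field_simp
  have h2 : S ^ 2 ^ (Fintype.card κ + 1) ≤ (γ * M) ^ 2 ^ (Fintype.card κ + 1) := by
    have h3 : M ^ 2 * S ^ 2 ^ (Fintype.card κ + 1) ≤
        M ^ 2 * (γ * M) ^ 2 ^ (Fintype.card κ + 1) := by
      refine h1.trans ?_
      calc M ^ 2 ^ (Fintype.card κ + 1) * ∑ a : ∀ i : κ, X (some i),
            ∑ b : ∀ i : κ, X (some i), (∑ P : X none, ∏ V : Finset κ, h (mix V a b) P) ^ 2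
          ≤ M ^ 2 ^ (Fintype.card κ + 1) * (M ^ 2 * (Bd ^ 2 / m ^ 2 +
            3 * ∑ i : κ, 1 / (Fintype.card (X (some i)) : ℝ))) := by gcongr
        _ ≤ M ^ 2 ^ (Fintype.card κ + 1) * (M ^ 2 * γ ^ 2 ^ (Fintype.card κ + 1)) := by gcongr
        _ = _ := by rw [mul_pow]; ring
    exact le_of_mul_le_mul_left h3 (by positivity)
  have heven : Even (2 ^ (Fintype.card κ + 1)) := by
    rw [pow_succ]
    exact even_two.mul_left _
  rw [← heven.pow_abs S] at h2
  exact le_of_pow_le_pow_left₀ (by positivity) (by positivity) h2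

end Pool.Agent.Sm
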