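import Pool.Agent.Lib.Sm.I.Tools
import Pool.Agent.Lib.SmF.QRec

/-!
Project SMITH over `F_q(t)` (MP_48b749_nt), block I: the facts on the quadratic characters
`ch f : G → ZMod 2` (`f : k[X]`) used to pass from polynomials to the abstract structure `Sys`, and
the expansion of the characters unramified outside a finite set of primes.
-/

set_option autoImplicit false

open Polynomial Finset

namespace Pool.Agent.Sm

/-- The facts on the quadratic characters. `pl P` is the place of the monic irreducible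
polynomial `P`. -/
structure ChOk {k : Type} [Field k] {G V Pl : Type} [Group G] [AddCommGroup V]
    [DistribMulAction G V] (S : Sys G V Pl) (ch : k[X] → G → ZMod 2) (d : TwData k)
    (pl : k[X] → Pl) : Prop where
  two : (2 : k) ≠ 0
  hom : ∀ f, f ≠ 0 → S.HomG (ch f)
  mul : ∀ f g, f ≠ 0 → g ≠ 0 → ∀ s, ch (f * g) s = ch f s + ch g s
  kummer : ∀ c : G → ZMod 2, S.HomG c → ∃ f : k[X], f ≠ 0 ∧ ∀ s, c s = ch f s
  cst : ∀ c : k, c ≠ 0 → (∀ s, ch (C c) s = 0) ∨ ∀ s, ch (C c) s = ch (C d.u) s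
  u_ne : ∃ s, ch (C d.u) s ≠ 0
  pl_inj : ∀ P Q, P.Monic → Irreducible P → Q.Monic → Irreducible Q → pl P = pl Q → P = Q
  pl_inf : ∀ P, P.Monic → Irreducible P → pl P ≠ S.inf
  pl_cases : ∀ v, v = S.inf ∨ ∃ P, P.Monic ∧ Irreducible P ∧ v = pl P
  good : ∀ P, P.Monic → Irreducible P → (pl P ∈ S.good ↔ ∀ i, P ≠ d.ell i)
  sg_self : ∀ P, P.Monic → Irreducible P → ch P (S.sg (pl P)) = 1
  sg_off : ∀ P f, P.Monic → Irreducible P → ¬ P ∣ f → ch f (S.sg (pl P)) = 0
  ph : ∀ P f, P.Monic → Irreducible P → ¬ P ∣ f → ch f (S.phi (pl P)) = leg P f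
  inf_sg : ∀ P Q, P.Monic → Q.Monic → P.natDegree = Q.natDegree →
    ch P (S.sg S.inf) = ch Q (S.sg S.inf)
  inf_phi : ∀ P Q, P.Monic → Q.Monic → P.natDegree = Q.natDegree →
    ch P (S.phi S.inf) = ch Q (S.phi S.inf)
  tor : ∀ (w : V1) (z : V), (2 : ℕ) • z = S.iota w → ∀ s, s • z - z =
    S.iota (∑ i, ch (d.ell i) s • d.T i w + ch (C d.u) s • d.Tc w)

namespace ChOk

variable {k : Type} [Field k] {G V Pl : Type} [Group G] [AddCommGroup V]
  [DistribMulAction G V] {S : Sys G V Pl} {ch : k[X] → G → ZMod 2} {d : TwData k}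
  {pl : k[X] → Pl}

theorem u_ne_zero : d.u ≠ 0 := by
  intro h
  apply d.u_nonsq
  rw [h]
  exact ⟨0, by simp⟩

/-- The values at `sg`. -/
theorem sg_ne (h : ChOk S ch d pl) {P Q : k[X]} (hP : P.Monic) (hP' : Irreducible P)
    (hQ : Q.Monic) (hQ' : Irreducible Q) (hPQ : P ≠ Q) : ch Q (S.sg (pl P)) = 0 :=
  h.sg_off P Q hP hP' (SmF.not_dvd_of_ne hP' hP hQ' hQ hPQ)

theorem sg_u (h : ChOk S ch d pl) {P : k[X]} (hP : P.Monic) (hP' : Irreducible P) :
    ch (C d.u) (S.sg (pl P)) = 0 :=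
  h.sg_off P _ hP hP' (SmF.not_dvd_C hP' u_ne_zero)

open Classical in
/-- Every quadratic character is a sum of `ch u` and of characters of primes. -/
theorem expand (h : ChOk S ch d pl) (f : k[X]) (hf : f ≠ 0) :
    ∃ (ε : ZMod 2) (T : Finset k[X]), (∀ P ∈ T, P.Monic ∧ Irreducible P) ∧
      ∀ s, ch f s = ε * ch (C d.u) s + ∑ P ∈ T, ch P s := by
  have hcst : ∀ c : k, c ≠ 0 → ∃ ε : ZMod 2, ∀ s, ch (C c) s = ε * ch (C d.u) s := by
    intro c hc
    rcases h.cst c hc with h1 | h1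
    · exact ⟨0, fun s => by rw [h1 s, zero_mul]⟩
    · exact ⟨1, fun s => by rw [h1 s, one_mul]⟩
  induction f using WfDvdMonoid.induction_on_irreducible with
  | zero => exact absurd rfl hf
  | unit u hu =>
    obtain ⟨c, hc, rfl⟩ := Polynomial.isUnit_iff.1 hu
    obtain ⟨ε, hε⟩ := hcst c hc.ne_zero
    exact ⟨ε, ∅, fun P hP => absurd hP (Finset.notMem_empty P), fun s => by
      rw [hε s, Finset.sum_empty, add_zero]⟩
  | mul g i hg hi ih =>
    obtain ⟨ε, T, hT, hs⟩ := ih hg
    have hlc : i.leadingCoeff ≠ 0 := leadingCoeff_ne_zero.mpr hi.ne_zero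
    obtain ⟨ε', hε'⟩ := hcst _ hlc
    -- the monic irreducible polynomial
    set P : k[X] := i * C (i.leadingCoeff⁻¹) with hPdef
    have hPm : P.Monic := monic_mul_leadingCoeff_inv hi.ne_zero
    have hPi : Irreducible P := by
      have hu : IsUnit (C (i.leadingCoeff⁻¹) : k[X]) :=
        isUnit_C.2 (inv_ne_zero hlc).isUnit
      exact (irreducible_mul_isUnit hu).mpr hi
    have hiP : i = C i.leadingCoeff * P := by
      rw [hPdef, mul_comm i, ← mul_assoc, ← C_mul, mul_inv_cancel₀ hlc, C_1, one_mul]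
    have hchi : ∀ s, ch i s = ch (C i.leadingCoeff) s + ch P s := by
      intro s
      conv_lhs => rw [hiP]
      rw [h.mul _ _ (C_ne_zero.mpr hlc) hPm.ne_zero]
    refine ⟨ε + ε', symmDiff T {P}, fun Q hQ => ?_, fun s => ?_⟩
    · rw [Finset.mem_symmDiff] at hQ
      rcases hQ with ⟨hQ, -⟩ | ⟨hQ, -⟩
      · exact hT Q hQ
      · rw [Finset.mem_singleton] at hQ
        rw [hQ]
        exact ⟨hPm, hPi⟩
    · rw [h.mul i g hi.ne_zero hg, hchi s, hs s, hε' s]
      have h2 : ∀ x : ZMod 2, x + x = 0 := by decide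
      by_cases hPT : P ∈ T
      · have e1 : symmDiff T {P} = T.erase P := by
          ext Q
          simp only [Finset.mem_symmDiff, Finset.mem_singleton, Finset.mem_erase]
          constructor
          · rintro (⟨h1, h3⟩ | ⟨h1, h3⟩)
            · exact ⟨h3, h1⟩
            · exact absurd (h1 ▸ hPT) h3
          · rintro ⟨h1, h3⟩
            exact Or.inl ⟨h3, h1⟩
        rw [e1, ← Finset.add_sum_erase T _ hPT]
        have h3 := h2 (ch P s)
        linear_combination h3
      · have e1 : symmDiff T {P} = insert P T := by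
          ext Q
          simp only [Finset.mem_symmDiff, Finset.mem_singleton, Finset.mem_insert]
          constructor
          · rintro (⟨h1, h3⟩ | ⟨h1, h3⟩)
            · exact Or.inr h1
            · exact Or.inl h1
          · rintro (h1 | h1)
            · exact Or.inr ⟨h1, h1 ▸ hPT⟩
            · exact Or.inl ⟨h1, fun h3 => hPT (h3 ▸ h1)⟩
        rw [e1, Finset.sum_insert hPT]
        ring

open Classical in
/-- The expansion of a character which is unramified outside the finite set `Q` of primes. -/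
theorem unr_expand (h : ChOk S ch d pl) {c : G → ZMod 2} (hc : S.HomG c) (Q : Finset k[X])
    (hQ : ∀ P ∈ Q, P.Monic ∧ Irreducible P)
    (hun : ∀ P, P.Monic → Irreducible P → P ∉ Q → c (S.sg (pl P)) = 0) :
    ∃ ε : ZMod 2, ∀ s, c s = ε * ch (C d.u) s + ∑ P ∈ Q, c (S.sg (pl P)) * ch P s := by
  obtain ⟨f, hf, hcf⟩ := h.kummer c hc
  obtain ⟨ε, T, hT, hs⟩ := h.expand f hf
  have hval : ∀ P, P.Monic → Irreducible P → c (S.sg (pl P)) = if P ∈ T then 1 else 0 := by
    intro P hP hP'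
    rw [hcf, hs, h.sg_u hP hP', mul_zero, zero_add]
    split_ifs with hPT
    · rw [Finset.sum_eq_single P, h.sg_self P hP hP']
      · intro R hR hRP
        exact h.sg_ne hP hP' (hT R hR).1 (hT R hR).2 hRP.symm
      · intro hh
        exact absurd hPT hh
    · exact Finset.sum_eq_zero fun R hR =>
        h.sg_ne hP hP' (hT R hR).1 (hT R hR).2 (fun hh => hPT (hh ▸ hR))
  have hTQ : T ⊆ Q := by
    intro P hP
    by_contra hPQ
    have h1 := hun P (hT P hP).1 (hT P hP).2 hPQ
    rw [hval P (hT P hP).1 (hT P hP).2, if_pos hP] at h1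
    exact one_ne_zero h1
  refine ⟨ε, fun s => ?_⟩
  rw [hcf, hs]
  congr 1
  rw [← Finset.sum_subset hTQ]
  · refine Finset.sum_congr rfl fun P hP => ?_
    rw [hval P (hT P hP).1 (hT P hP).2, if_pos hP, one_mul]
  · intro P hP hPT
    rw [hval P (hQ P hP).1 (hQ P hP).2, if_neg hPT, zero_mul]

end ChOk

end Pool.Agent.Sm
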