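import Mathlib

/-!
SMITH, block I, section I4: counting the classes of a chain of functions (pure combinatorics).
-/

set_option autoImplicit false

open Finset

namespace Pool.Agent.Sm

/-- Functions `v m`, `m ∈ s`, of `z ∈ A`, such that `v m` takes at most `h0` values on every set
where the `v m'` of smaller rank are constant: all together they take at most `h0 ^ #s` values. -/
theorem chain_classes {Z I M : Type*} (A : Set Z) (v : I → Z → M) (ρ : I → ℕ) (h0 : ℕ)
    (hh : 0 < h0) (s : Finset I) (hs : ∀ m ∈ s, ∀ m', ρ m' < ρ m → m' ∈ s)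
    (H : ∀ m ∈ s, ∀ z ∈ A, ∃ T : Finset M, T.card ≤ h0 ∧
      ∀ w ∈ A, (∀ m' ∈ s, ρ m' < ρ m → v m' z = v m' w) → v m w ∈ T) :
    ∃ κ : Z → Fin (h0 ^ s.card), ∀ z ∈ A, ∀ w ∈ A, κ z = κ w → ∀ m ∈ s, v m z = v m w := by
  classical
  induction s using Finset.induction_on_max_value (f := ρ) with
  | empty =>
    exact ⟨fun _ => ⟨0, by simp⟩, fun z _ w _ _ m hm => absurd hm (notMem_empty m)⟩
  | insert a s ha hmax ih =>
    have hs' : ∀ m ∈ s, ∀ m', ρ m' < ρ m → m' ∈ s := by
      intro m hm m' hm'
      have h1 := hs m (mem_insert_of_mem hm) m' hm'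
      rcases mem_insert.1 h1 with h2 | h2
      · subst h2
        exact absurd (hmax m hm) (not_le.2 hm')
      · exact h2
    obtain ⟨κ', hκ'⟩ := ih hs' (by
      intro m hm z hz
      obtain ⟨T, hT, h1⟩ := H m (mem_insert_of_mem hm) z hz
      refine ⟨T, hT, fun w hw hmw => h1 w hw fun m' _ hlt => hmw m' (hs' m hm m' hlt) hlt⟩)
    -- the representatives
    have h2 : ∀ c : Fin (h0 ^ s.card), ∃ e : M → Fin h0, ∀ z ∈ A, ∀ w ∈ A, κ' z = c → κ' w = c →
        e (v a z) = e (v a w) → v a z = v a w := by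
      intro c
      by_cases hc : ∃ z ∈ A, κ' z = c
      · obtain ⟨z0, hz0, rfl⟩ := hc
        obtain ⟨T, hT, h3⟩ := H a (mem_insert_self a s) z0 hz0
        have h4 : ∀ w ∈ A, κ' w = κ' z0 → v a w ∈ T := by
          intro w hw hwz
          refine h3 w hw fun m' hm' hlt => ?_
          rcases mem_insert.1 hm' with h5 | h5
          · subst h5
            exact absurd hlt (lt_irrefl _)
          · exact hκ' z0 hz0 w hw hwz.symm m' h5
        obtain ⟨e, he⟩ : ∃ e : M → Fin h0, Set.InjOn e T := by
          have h6 : Nonempty (T ↪ Fin h0) := by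
            rw [Function.Embedding.nonempty_iff_card_le, Fintype.card_coe, Fintype.card_fin]
            exact hT
          obtain ⟨f⟩ := h6
          refine ⟨fun x => if hx : x ∈ T then f ⟨x, hx⟩ else ⟨0, hh⟩, fun x hx y hy hxy => ?_⟩
          have hx' : x ∈ T := hx
          have hy' : y ∈ T := hy
          simp only [hx', hy', dite_true] at hxy
          exact congrArg Subtype.val (f.injective hxy)
        exact ⟨e, fun z hz w hw hzc hwc hzw => he (h4 z hz hzc) (h4 w hw hwc) hzw⟩
      · exact ⟨fun _ => ⟨0, hh⟩, fun z hz w _ hzc _ _ => absurd ⟨z, hz, hzc⟩ hc⟩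
    choose e he using h2
    have hcard : h0 ^ s.card * h0 = h0 ^ (insert a s).card := by
      rw [card_insert_of_notMem ha, pow_succ]
    refine ⟨fun z => Fin.cast hcard (finProdFinEquiv (κ' z, e (κ' z) (v a z))), ?_⟩
    intro z hz w hw hzw m hm
    have h7 : (κ' z, e (κ' z) (v a z)) = (κ' w, e (κ' w) (v a w)) :=
      finProdFinEquiv.injective (Fin.cast_injective hcard hzw)
    have h8 : κ' z = κ' w := congrArg Prod.fst h7
    have h9 : e (κ' z) (v a z) = e (κ' w) (v a w) := congrArg Prod.snd h7
    rcases mem_insert.1 hm with h10 | h10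
    · subst h10
      rw [h8] at h9
      exact he (κ' w) z hz w hw h8 rfl h9
    · exact hκ' z hz w hw h8 m h10

end Pool.Agent.Sm
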