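import Pool.Agent.Lib.Sm.I.Face

/-!
SMITH, block I, section I4: the alternating sum over a face all of whose proper faces are minimal is
an element of the finite group `HH Γ x W`.
-/

set_option autoImplicit false

open Finset

namespace Pool.Agent.Sm

open Pool.Agent.Sm.IT Pool.Agent.SmA

section general

variable {G V Pl I : Type*} [Group G] [AddCommGroup V] [DistribMulAction G V] [DecidableEq I]
variable {S : Sys G V Pl}

/-- The alternating sum over a face all of whose proper faces are minimal is a homomorphism to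
`V1`. -/
theorem delta_hom (hS : S.Ok) {chi0 : G → ZMod 2} {del : I → G → ZMod 2} {Psi : Finset I → G → V}
    {W T : Finset I} {j : ℕ} (hWT : Disjoint W T) (hne : W.Nonempty) (hj : W.card ≤ j)
    (htf : ∀ T', T' ⊆ W → S.TF (Psi (T ∪ T')))
    (hc : ∀ T', T' ⊆ W → ∀ s t, Psi (T ∪ T') (s * t) =
      Psi (T ∪ T') s + tw (chiC chi0 del (T ∪ T')) s (Psi (T ∪ T') t))
    (hmin : ∀ W', W' ⊂ W → ∀ T', T' ⊆ W \ W' → Mn j Psi W' (T ∪ T')) :
    ∃ h : G → V1, S.HomG h ∧
      ∀ s, S.iota (h s) = alt W (fun P => (2 : ℕ) ^ (j - W.card) • Psi P s) T := by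
  have h2 : ∀ s, (2 : ℕ) • alt W (fun P => (2 : ℕ) ^ (j - W.card) • Psi P s) T = 0 := by
    intro s
    obtain ⟨i, hi⟩ := hne
    have h3 : W.erase i ⊂ W := erase_ssubset hi
    have h4 : (W.erase i).card = W.card - 1 := card_erase_of_mem hi
    have h5 : 0 < W.card := card_pos.2 ⟨i, hi⟩
    have h6 : ∀ P : Finset I, (2 : ℕ) • (2 : ℕ) ^ (j - W.card) • Psi P s =
        (2 : ℕ) ^ (j - (W.erase i).card) • Psi P s := by
      intro P
      rw [smul_smul, ← pow_succ']
      congr 2
      omega
    rw [← alt_nsmul]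
    simp only [h6]
    rw [alt_of_mem hi]
    have h7 := hmin _ h3 ∅ (empty_subset _) s
    have h8 := hmin _ h3 {i} (by
      intro x hx
      rw [mem_singleton] at hx
      subst hx
      simp [hi]) s
    rw [union_empty] at h7
    rw [union_singleton] at h8
    rw [h7, h8, sub_zero]
  obtain ⟨h, hh⟩ := Sys.exists_V1 hS h2
  refine ⟨h, ⟨?_, ?_⟩, hh⟩
  · have e : h = fun s => S.un (alt W (fun P => (2 : ℕ) ^ (j - W.card) • Psi P s) T) := by
      funext s
      rw [← hh s, Sys.un_iota hS]
    rw [e]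
    apply Sys.TF.comp (f := fun s => alt W (fun P => (2 : ℕ) ^ (j - W.card) • Psi P s) T) ?_ S.un
    apply tf_alt hS W T (fun P s => (2 : ℕ) ^ (j - W.card) • Psi P s)
    intro T' hT'
    exact (htf T' hT').comp (fun x => (2 : ℕ) ^ (j - W.card) • x)
  · intro s t
    apply hS.iota_inj
    rw [map_add, hh]
    have h1 := alt_cocycle chi0 del (fun P g => (2 : ℕ) ^ (j - W.card) • Psi P g) s t W T hWT (by
      intro T' hT'
      rw [hc T' hT' s t, smul_add, tw_nsmul])
    rw [h1, hh s]
    congr 1
    have h9 : (∑ T' ∈ W.powerset, (2 ^ T'.card * (pdel del T' s).val) •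
        alt (W \ T') (fun Q => (2 : ℕ) ^ (j - W.card) • Psi Q t) (T ∪ T')) =
        alt W (fun P => (2 : ℕ) ^ (j - W.card) • Psi P t) T := by
      rw [sum_eq_single ∅]
      · simp [pdel, show (1 : ZMod 2).val = 1 from rfl]
      · intro T' hT' hne'
        have hT'W : T' ⊆ W := mem_powerset.1 hT'
        have hcard : (W \ T').card = W.card - T'.card := card_sdiff_of_subset hT'W
        have hle : T'.card ≤ W.card := card_le_card hT'W
        have hss : W \ T' ⊂ W := sdiff_ssubset hT'W (nonempty_iff_ne_empty.2 hne')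
        have h10 := hmin (W \ T') hss T' (by
          rw [Finset.sdiff_sdiff_eq_self hT'W]) t
        rw [mul_comm, mul_smul, ← alt_nsmul]
        have h11 : ∀ Q : Finset I, (2 : ℕ) ^ T'.card • (2 : ℕ) ^ (j - W.card) • Psi Q t =
            (2 : ℕ) ^ (j - (W \ T').card) • Psi Q t := by
          intro Q
          rw [smul_smul, ← pow_add]
          congr 2
          omega
        simp only [h11]
        rw [h10, smul_zero]
      · intro hn
        exact absurd (empty_mem_powerset W) hn
    rw [h9, ← hh t, Sys.tw_iota hS]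

/-- The alternating sum over a face where all vertices satisfy the local condition for the same
twist. -/
theorem delta_loc (hS : S.Ok) {chi : G → ZMod 2} {v : Pl} {f : Finset I → G → V}
    {W T : Finset I} (hf : ∀ T', T' ⊆ W → S.Zv chi v (f (T ∪ T'))) {h : G → V1}
    (hh : ∀ s, S.iota (h s) = alt W (fun P => f P s) T) : S.loc v h ∈ S.Wl chi v := by
  have hQ : ∃ Q : Finset I → V, ∀ T', T' ⊆ W → ∀ s ∈ S.D v, f (T ∪ T') s = dl chi (Q T') s := by
    have : ∀ T' : Finset I, ∃ Q : V, T' ⊆ W → ∀ s ∈ S.D v, f (T ∪ T') s = dl chi Q s := by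
      intro T'
      by_cases hT' : T' ⊆ W
      · obtain ⟨Q, hQ⟩ := hf T' hT'
        exact ⟨Q, fun _ => hQ⟩
      · exact ⟨0, fun hc => absurd hc hT'⟩
    choose Q hQ using this
    exact ⟨Q, hQ⟩
  obtain ⟨Q, hQ⟩ := hQ
  set R : V := ∑ T' ∈ W.powerset, (-1 : ℤ) ^ T'.card • Q T' with hR
  have key : ∀ s ∈ S.D v, dl chi R s = S.iota (h s) := by
    intro s hs
    rw [hh s]
    change dlHom chi s R = _
    rw [hR, map_sum]
    unfold alt
    refine sum_congr rfl fun T' hT' => ?_
    beta_reduce
    rw [map_zsmul, hQ T' (mem_powerset.1 hT') s hs]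
    rfl
  exact ⟨R, fun s hs => by rw [key s hs, Sys.two_iota], key _ (hS.sg_mem v), key _ (hS.phi_mem v)⟩

end general

variable {G V Pl : Type*} [Group G] [AddCommGroup V] [DistribMulAction G V] {S : Sys G V Pl}
variable {ι : Type*} [Fintype ι] {X : ι → Type*} {r k : ℕ} {Γ : Grid S X} {τ : Twr G ι r}

theorem psi_spec {x : ∀ i, X i} (hx : x ∈ τ.Y Γ k) (l : Fin (r + 1)) :
    τ.IsTow Γ k x l (τ.psi Γ k x l) := by
  unfold Twr.psi
  rw [dif_pos (hx.2 l)]
  exact (hx.2 l).choose_spec

/-- The base of the tower. -/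
theorem psi_base_sg (hΓ : Γ.Ok) (hτ : τ.Ok Γ k) {x : ∀ i, X i} (hx : x ∈ τ.Y Γ k)
    (l : Fin (r + 1)) (m : ι) :
    (2 : ℕ) ^ (τ.jl l - 1) • τ.psi Γ k x l (S.sg (Γ.pl m (x m))) = S.iota ((τ.c l).2 m) := by
  rw [(psi_spec hx l).base, Grid.ch_sg_pl hΓ (hτ.c_mem l).1]

variable [DecidableEq ι]

/-- I4: the difference cochain is in the finite group. -/
theorem delta_mem (hS : S.Ok) (hΓ : Γ.Ok) (hτ : τ.Ok Γ k) {c0 : Fin (r + 1) → ι → V}
    {y z : ∀ i, X i} {l : Fin (r + 1)} {W T : Finset ι} (hWT : Disjoint W T) (hne : W.Nonempty)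
    (hj : W.card ≤ τ.jl l) (hσ : Disjoint W (τ.sig l))
    (hY : ∀ T', T' ⊆ W → mix (T ∪ T') y z ∈ τ.Y Γ k ∧ τ.col Γ k (mix (T ∪ T') y z) = c0)
    (hmin : ∀ W', W' ⊂ W → W'.Nonempty → ∀ T', T' ⊆ W \ W' →
      Mn (τ.jl l) (τ.fam Γ k y z l) W' (T ∪ T')) :
    ∃ h ∈ HH Γ (mix T y z) W, ∀ s, S.iota (h s) =
      alt W (fun P => (2 : ℕ) ^ (τ.jl l - W.card) • τ.fam Γ k y z l P s) T := by
  classical
  have hsel : ∀ T', T' ⊆ W → S.IsSel (Γ.chi (mix (T ∪ T') y z)) (τ.jl l)
      (τ.fam Γ k y z l (T ∪ T')) := fun T' hT' => (psi_spec (hY T' hT').1 l).sel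
  -- degenerate cubes
  by_cases hdeg : ∃ i ∈ W, y i = z i
  · obtain ⟨i, hi, hyz⟩ := hdeg
    refine ⟨fun _ => 0, HH_zero hS Γ _ W, fun s => ?_⟩
    rw [map_zero]
    symm
    apply alt_eq_zero_of_indep hi
    intro T' hT'
    have : mix (insert i (T ∪ T')) y z = mix (T ∪ T') y z := by
      funext j
      by_cases hji : j = i
      · subst hji
        rw [mix_mem y z (mem_insert_self _ _)]
        by_cases hjT : j ∈ T ∪ T'
        · rw [mix_mem y z hjT]
        · rw [mix_notMem y z hjT, hyz]
      · by_cases hjT : j ∈ T ∪ T'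
        · rw [mix_mem y z hjT, mix_mem y z (mem_insert_of_mem hjT)]
        · rw [mix_notMem y z hjT, mix_notMem y z (by
            rw [mem_insert]
            push Not
            exact ⟨hji, hjT⟩)]
    unfold Twr.fam
    rw [this]
  push Not at hdeg
  obtain ⟨h, hh, hh'⟩ := delta_hom hS (chi0 := Γ.chi y) (del := Γ.del y z)
    (Psi := τ.fam Γ k y z l) hWT hne hj (fun T' hT' => (hsel T' hT').tf)
    (fun T' hT' s t => by
      rw [← Grid.chi_mix]
      exact (hsel T' hT').coc s t)
    (fun W' hW' T' hT' => by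
      rcases eq_empty_or_nonempty W' with rfl | hne'
      · intro s
        rw [alt_empty, card_empty, Nat.sub_zero]
        exact (hsel T' (hT'.trans sdiff_subset)).lev s
      · exact hmin W' hW' hne' T' hT')
  refine ⟨h, ⟨hh, ?_, ?_⟩, hh'⟩
  · -- the local conditions
    intro v hv
    have hchi : ∀ T', T' ⊆ W → ∀ s ∈ S.D v,
        Γ.chi (mix (T ∪ T') y z) s = Γ.chi (mix T y z) s := by
      intro T' hT'
      rcases hv with hv | ⟨m, hm, rfl⟩
      · exact Grid.chi_bad hΓ _ _ hv
      · have h1 : mix (T ∪ T') y z m = mix T y z m := by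
          by_cases hmT : m ∈ T
          · rw [mix_mem y z hmT, mix_mem y z (mem_union_left _ hmT)]
          · rw [mix_notMem y z hmT, mix_notMem y z (by
              rw [mem_union]
              push Not
              exact ⟨hmT, fun hc => hm (hT' hc)⟩)]
        have h2 := (hY T' hT').1.1
        have h3 := (hY ∅ (empty_subset _)).1.1
        rw [union_empty] at h3
        intro s hs
        rw [← h1] at hs
        exact Grid.chi_D hS hΓ h2 h3 h1 s hs
    refine delta_loc hS (f := fun P s => (2 : ℕ) ^ (τ.jl l - W.card) • τ.fam Γ k y z l P s)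
      (W := W) (T := T) (fun T' hT' => ?_) hh'
    obtain ⟨Q, hQ⟩ := zv_congr (hchi T' hT') ((hsel T' hT').loc v)
    exact ⟨(2 : ℕ) ^ (τ.jl l - W.card) • Q, fun s hs => by
      beta_reduce
      rw [dl_nsmul, hQ s hs]⟩
  · -- unramified places
    intro v hv hvm
    apply hS.iota_inj
    rw [map_zero, hh']
    -- the vertices which do not contain `v`
    have hoff : ∀ T', T' ⊆ W → (∀ m, v ≠ Γ.pl m (mix (T ∪ T') y z m)) →
        τ.fam Γ k y z l (T ∪ T') (S.sg v) = 0 := fun T' hT' hm =>
      sel_sg_off hS hΓ (hsel T' hT') hv hm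
    have hon : ∀ T', T' ⊆ W → ∀ m, v = Γ.pl m (mix (T ∪ T') y z m) →
        τ.fam Γ k y z l (T ∪ T') (S.sg v) = c0 l m := by
      intro T' hT' m hm
      rw [← (hY T' hT').2, hm]
      rfl
    have hout : ∀ T', T' ⊆ W → ∀ m, m ∉ W → v ≠ Γ.pl m (mix (T ∪ T') y z m) := by
      intro T' hT' m hm
      have h1 : mix (T ∪ T') y z m = mix T y z m := by
        by_cases hmT : m ∈ T
        · rw [mix_mem y z hmT, mix_mem y z (mem_union_left _ hmT)]
        · rw [mix_notMem y z hmT, mix_notMem y z (by
            rw [mem_union]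
            push Not
            exact ⟨hmT, fun hc => hm (hT' hc)⟩)]
      rw [h1]
      exact hvm m hm
    by_cases hcase : ∃ m ∈ W, v = Γ.pl m (y m) ∨ v = Γ.pl m (z m)
    · obtain ⟨m, hmW, hvm'⟩ := hcase
      have hmT : m ∉ T := fun hc => (disjoint_left.1 hWT hmW) hc
      -- the other directions do not contain `v`
      have hoth : ∀ T', T' ⊆ W → ∀ m', m' ≠ m → v ≠ Γ.pl m' (mix (T ∪ T') y z m') := by
        intro T' _ m' hm' hc
        rcases hvm' with h1 | h1 <;>
        · rw [h1] at hc
          exact hm' (hΓ.pl_dir _ _ _ _ hc).symm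
      have hval : ∀ T', T' ⊆ W → τ.fam Γ k y z l (T ∪ T') (S.sg v) =
          if v = Γ.pl m (mix (T ∪ T') y z m) then c0 l m else 0 := by
        intro T' hT'
        split_ifs with h1
        · exact hon T' hT' m h1
        · refine hoff T' hT' fun m' => ?_
          by_cases hm' : m' = m
          · subst hm'
            exact h1
          · exact hoth T' hT' m' hm'
      -- the value depends only on whether `m ∈ T'`
      have hval2 : ∃ α β : V, (∀ T', T' ⊆ W → m ∉ T' →
          τ.fam Γ k y z l (T ∪ T') (S.sg v) = α) ∧ (∀ T', T' ⊆ W → m ∈ T' →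
          τ.fam Γ k y z l (T ∪ T') (S.sg v) = β) ∧
          (2 : ℕ) ^ (τ.jl l - 1) • α = 0 ∧ (2 : ℕ) ^ (τ.jl l - 1) • β = 0 := by
        have hz0 : (2 : ℕ) ^ (τ.jl l - 1) • c0 l m = 0 := by
          have h1 := psi_base_sg hΓ hτ (hY ∅ (empty_subset _)).1 l m
          have h2 := congrFun (congrFun (hY ∅ (empty_subset _)).2 l) m
          unfold Twr.col at h2
          rw [h2, hτ.supp l m (disjoint_left.1 hσ hmW), map_zero] at h1
          exact h1
        refine ⟨if v = Γ.pl m (y m) then c0 l m else 0, if v = Γ.pl m (z m) then c0 l m else 0,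
          fun T' hT' hm => ?_, fun T' hT' hm => ?_, ?_, ?_⟩
        · rw [hval T' hT', mix_notMem y z (by
            rw [mem_union]
            push Not
            exact ⟨hmT, hm⟩)]
        · rw [hval T' hT', mix_mem y z (mem_union_right _ hm)]
        · split_ifs
          · exact hz0
          · exact smul_zero _
        · split_ifs
          · exact hz0
          · exact smul_zero _
      obtain ⟨α, β, h1, h2, h3, h4⟩ := hval2
      rw [alt_of_mem hmW]
      have e1 : alt (W.erase m) (fun P => (2 : ℕ) ^ (τ.jl l - W.card) •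
          τ.fam Γ k y z l P (S.sg v)) T = alt (W.erase m)
          (fun _ => (2 : ℕ) ^ (τ.jl l - W.card) • α) T := by
        apply alt_congr
        intro T' hT'
        rw [h1 T' (hT'.trans (erase_subset _ _)) fun hc => notMem_erase m W (hT' hc)]
      have e2 : alt (W.erase m) (fun P => (2 : ℕ) ^ (τ.jl l - W.card) •
          τ.fam Γ k y z l P (S.sg v)) (insert m T) = alt (W.erase m)
          (fun _ => (2 : ℕ) ^ (τ.jl l - W.card) • β) (insert m T) := by
        apply alt_congr
        intro T' hT'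
        have e3 : insert m T ∪ T' = T ∪ insert m T' := by
          rw [union_insert, insert_union]
        rw [e3, h2 (insert m T') (insert_subset hmW (hT'.trans (erase_subset _ _)))
          (mem_insert_self _ _)]
      rw [e1, e2]
      rcases eq_empty_or_nonempty (W.erase m) with he | he
      · have hc1 : W.card = 1 := by
          have := card_erase_of_mem hmW
          rw [he, card_empty] at this
          have := card_pos.2 hne
          omega
        rw [he, alt_empty, alt_empty, hc1, h3, h4, sub_zero]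
      · rw [alt_const he, alt_const he, sub_zero]
    · push Not at hcase
      have : alt W (fun P => (2 : ℕ) ^ (τ.jl l - W.card) • τ.fam Γ k y z l P (S.sg v)) T =
          alt W (fun _ => (0 : V)) T := by
        apply alt_congr
        intro T' hT'
        rw [hoff T' hT', smul_zero]
        intro m
        by_cases hm : m ∈ W
        · by_cases hmT : m ∈ T ∪ T'
          · rw [mix_mem y z hmT]
            exact (hcase m hm).2
          · rw [mix_notMem y z hmT]
            exact (hcase m hm).1
        · exact hout T' hT' m hm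
      rw [this, alt_zero]

end Pool.Agent.Sm
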