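import Pool.Agent.Lib.Sm.I.Cube
import Pool.Agent.Lib.Sm.I.Delta
import Pool.Agent.Lib.Sm.H.Sum
import Pool.Agent.Lib.Sm.H.PhiD
import Pool.Agent.Lib.Sm.G.Crit

/-!
SMITH, block I, section I5 (part 2): the claim. If `x` is good for `x0` then `x` is a point of the
type and the sum of `Fab` over the cube `(x0, x)` is a symbol of `Th`.
-/

set_option autoImplicit false

open Finset

namespace Pool.Agent.Sm.IC

open Pool.Agent.Sm Pool.Agent.Sm.IT Pool.Agent.SmA

variable {G V Pl : Type*} [Group G] [AddCommGroup V] [DistribMulAction G V] {S : Sys G V Pl}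
variable {ι : Type*} [Fintype ι] [DecidableEq ι] {X : ι → Type*} {r k : ℕ} {Γ : Grid S X}
  {τ : Twr G ι r} {x0 x : ∀ i, X i}

omit [DecidableEq ι] in
theorem exists_notMem {T : Finset ι} (hT : T ≠ univ) : ∃ i, i ∉ T := by
  by_contra hc
  push Not at hc
  exact hT (eq_univ_iff_forall.2 hc)

theorem subset_erase {T : Finset ι} {i : ι} (hi : i ∉ T) : T ⊆ univ.erase i := by
  intro a ha
  rw [mem_erase]
  exact ⟨fun h => hi (h ▸ ha), mem_univ a⟩

/-- All the vertices but the last one are points of the type with the colour of `x0`. -/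
theorem good_vertex (h : τ.Good Γ k x0 x) {T : Finset ι} (hT : T ≠ univ) :
    mix T x0 x ∈ τ.Y Γ k ∧ τ.col Γ k (mix T x0 x) = τ.col Γ k x0 := by
  obtain ⟨i, hi⟩ := exists_notMem hT
  exact (h i).2.1 T (subset_erase hi)

theorem good_ne (hcard : 2 ≤ Fintype.card ι) (h : τ.Good Γ k x0 x) (i : ι) : x0 i ≠ x i := by
  have h1 : 1 < Fintype.card ι := hcard
  obtain ⟨j, hj⟩ := Fintype.exists_ne_of_one_lt_card h1 i
  exact (h j).1 i (mem_erase.2 ⟨hj.symm, mem_univ i⟩)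

theorem good_mn (h : τ.Good Γ k x0 x) (l : Fin (r + 1)) {U P : Finset ι} (hUP : Disjoint U P)
    (hσ : Disjoint U (τ.sig l)) (h0 : U.Nonempty) (hj : U.card ≤ τ.jl l) (hne : P ∪ U ≠ univ) :
    Mn (τ.jl l) (τ.fam Γ k x0 x l) U P := by
  obtain ⟨i, hi⟩ := exists_notMem hne
  rw [mem_union, not_or] at hi
  refine (h i).2.2 l U (subset_erase hi.2) h0 hj hσ P ?_
  intro a ha
  rw [mem_sdiff]
  exact ⟨subset_erase hi.1 ha, fun hc => disjoint_left.1 hUP hc ha⟩

theorem good_symOk (hcard : 3 ≤ Fintype.card ι) (h : τ.Good Γ k x0 x) : Γ.SymOk x0 x :=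
  Grid.symOk_of_mix hcard fun _ hT => (good_vertex h hT).1.1

theorem good_mem_Xs (hcard : 3 ≤ Fintype.card ι) (h : τ.Good Γ k x0 x) (T : Finset ι) :
    mix T x0 x ∈ Γ.Xs :=
  Grid.mem_Xs_of_symOk (good_symOk hcard h) T

theorem good_cubeOk (hS : S.Ok) (hΓ : Γ.Ok) (hcard : 3 ≤ Fintype.card ι)
    (h : τ.Good Γ k x0 x) : CubeOk S (Γ.chi x0) (Γ.del x0 x) (Γ.plc x0 x) :=
  Grid.cubeOk hS hΓ (good_ne (by omega) h) (good_symOk hcard h)

/-- The tower of the vertex `T ≠ univ`. -/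
theorem good_fam (h : τ.Good Γ k x0 x) (l : Fin (r + 1)) {T : Finset ι} (hT : T ≠ univ) :
    τ.IsTow Γ k (mix T x0 x) l (τ.fam Γ k x0 x l T) :=
  psi_spec (good_vertex h hT).1 l

/-- The completed family. -/
noncomputable def lst (τ : Twr G ι r) (Γ : Grid S X) (k : ℕ) (x0 x : ∀ i, X i)
    (l : Fin (r + 1)) : Finset ι → G → V :=
  lastFam (univ \ τ.sig l) (τ.fam Γ k x0 x l)

theorem lst_of_ne (l : Fin (r + 1)) {T : Finset ι} (hT : T ≠ univ) :
    lst τ Γ k x0 x l T = τ.fam Γ k x0 x l T :=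
  lastFam_of_ne _ _ hT

/-- H5 for the grid. -/
theorem good_last (hS : S.Ok) (hΓ : Γ.Ok) (hτ : τ.Ok Γ k) (hk : 1 ≤ k)
    (hI : Fintype.card ι = k + 2) (h : τ.Good Γ k x0 x) (l : Fin (r + 1)) :
    (∀ P, S.IsSel (chiC (Γ.chi x0) (Γ.del x0 x) P) (τ.jl l) (lst τ Γ k x0 x l P)) ∧
    (∀ U P, Disjoint U P → Disjoint U (τ.sig l) → U.Nonempty → U.card ≤ τ.jl l →
      Mn (τ.jl l) (lst τ Γ k x0 x l) U P) := by
  refine last_vertex hS (good_cubeOk hS hΓ (by omega) h) (hτ.jl_le l) hI (hτ.sig_card l) ?_ ?_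
  · intro P hP
    have h1 := (good_fam h l hP).sel
    rwa [Grid.chi_mix] at h1
  · intro U P hUP hσ h0 hj hne
    exact good_mn h l hUP hσ h0 hj hne

theorem good_star (hS : S.Ok) (hΓ : Γ.Ok) (hτ : τ.Ok Γ k) (hk : 1 ≤ k)
    (hI : Fintype.card ι = k + 2) (h : τ.Good Γ k x0 x) (l : Fin (r + 1)) :
    Star univ (τ.jl l) (lst τ Γ k x0 x l) := by
  have h1 := good_last hS hΓ hτ hk hI h l
  exact star_of_min (hτ.sig_card l) (fun P _ s => (h1.1 P).lev s)
    (fun U P _ _ h2 h3 h4 h5 => h1.2 U P h2 h3 h4 h5)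

/-- The value of a code at a point which differs only in directions where it is not supported. -/
theorem ch_congr {c : GCode G ι} {y z : ∀ i, X i} (h : ∀ i, y i = z i ∨ c.2 i = 0) (s : G) :
    Γ.ch c y s = Γ.ch c z s := by
  unfold Grid.ch
  congr 1
  refine sum_congr rfl fun i _ => ?_
  rcases h i with h1 | h1
  · rw [h1]
  · rw [h1, smul_zero, smul_zero]

theorem good_base (hS : S.Ok) (hΓ : Γ.Ok) (hτ : τ.Ok Γ k) (hk : 1 ≤ k)
    (hI : Fintype.card ι = k + 2) (h : τ.Good Γ k x0 x) (l : Fin (r + 1)) (s : G) :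
    (2 : ℕ) ^ (τ.jl l - 1) • lst τ Γ k x0 x l univ s = S.iota (Γ.ch (τ.c l) x s) := by
  -- a direction outside of the support
  obtain ⟨i, hi⟩ : ∃ i, i ∉ τ.sig l := by
    apply exists_notMem
    intro he
    have h1 := hτ.sig_card l
    rw [he, card_univ] at h1
    omega
  have h1 := (good_last hS hΓ hτ hk hI h l).2 {i} (univ.erase i) (by simp)
    (disjoint_singleton_left.2 hi) (singleton_nonempty i) (by
      rw [card_singleton]
      exact hτ.jl_pos l) s
  rw [alt_singleton, card_singleton, insert_erase (mem_univ i)] at h1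
  have hne : (univ.erase i : Finset ι) ≠ univ := fun he => by
    have := notMem_erase i (univ : Finset ι)
    rw [he] at this
    exact this (mem_univ i)
  rw [lst_of_ne l hne] at h1
  rw [← sub_eq_zero.1 h1, (good_fam h l hne).base]
  congr 1
  refine ch_congr (fun j => ?_) s
  by_cases hj : j = i
  · subst hj
    exact Or.inr (hτ.supp l j hi)
  · left
    exact mix_mem x0 x (mem_erase.2 ⟨hj, mem_univ j⟩)

theorem good_val (hS : S.Ok) (hΓ : Γ.Ok) (hτ : τ.Ok Γ k) (hk : 1 ≤ k)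
    (hI : Fintype.card ι = k + 2) (h : τ.Good Γ k x0 x) (l : Fin (r + 1)) (hl : τ.jl l < k)
    {d : GCode G ι} (hd : d ∈ Γ.FF) :
    S.CT (Γ.chi x) (lst τ Γ k x0 x l univ) (Γ.ch d x) = τ.fl l d := by
  have h1 := value_const hS (good_cubeOk hS hΓ (by omega) h) (good_star hS hΓ hτ hk hI h l)
    (good_last hS hΓ hτ hk hI h l).1 (by omega) (Γ.ch d x0) d.2 (fun T => by
      have h2 := hd.2 _ (good_mem_Xs (by omega) h T)
      rwa [Grid.chi_mix, Grid.ch_mix] at h2) (f := τ.fl l d) (fun T hT => by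
      have h2 := (good_fam h l hT).val hl d hd
      rw [Grid.chi_mix, Grid.ch_mix] at h2
      rwa [lst_of_ne l hT])
  rwa [← Grid.chi_mix, ← Grid.ch_mix, Grid.mix_univ] at h1

/-- The last value of the completed family is a tower at the point `x`. -/
theorem good_tow (hS : S.Ok) (hΓ : Γ.Ok) (hτ : τ.Ok Γ k) (hk : 1 ≤ k)
    (hI : Fintype.card ι = k + 2) (h : τ.Good Γ k x0 x) (l : Fin (r + 1)) :
    τ.IsTow Γ k x l (lst τ Γ k x0 x l univ) where
  sel := by
    have h1 := (good_last hS hΓ hτ hk hI h l).1 univ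
    rwa [← Grid.chi_mix, Grid.mix_univ] at h1
  base := good_base hS hΓ hτ hk hI h l
  val := fun hl _ hd => good_val hS hΓ hτ hk hI h l hl hd

/-- The claim, first part. -/
theorem good_Y (hS : S.Ok) (hΓ : Γ.Ok) (hτ : τ.Ok Γ k) (hk : 1 ≤ k)
    (hI : Fintype.card ι = k + 2) (h : τ.Good Γ k x0 x) : x ∈ τ.Y Γ k := by
  refine ⟨?_, fun l => ⟨_, good_tow hS hΓ hτ hk hI h l⟩⟩
  have h1 := good_mem_Xs (by omega) h univ
  rwa [Grid.mix_univ] at h1

omit [DecidableEq ι] in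
/-- The pairing with `b` is the same for all the towers of `a`. -/
theorem tow_CT (hS : S.Ok) (hΓ : Γ.Ok) (hτ : τ.Ok Γ k) (hx : x ∈ τ.Y Γ k) {Psi Psi' : G → V}
    (h : τ.IsTow Γ k x 0 Psi) (h' : τ.IsTow Γ k x 0 Psi') :
    S.CT (Γ.chi x) Psi (Γ.ch τ.b x) = S.CT (Γ.chi x) Psi' (Γ.ch τ.b x) := by
  have hchi := Grid.chi_hom hS hΓ x
  have hb := hτ.b_mem.2 x hx.1
  have h1 : S.IsSel (Γ.chi x) (k - 1) (Psi + -Psi') := by
    refine Sys.IsSel.of_lev (k := τ.jl 0) (Sys.IsSel.add hS h.sel (Sys.IsSel.neg h'.sel)) ?_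
    intro s
    have e1 := h.base s
    have e2 := h'.base s
    rw [hτ.jl_zero] at e1 e2
    rw [Pi.add_apply, Pi.neg_apply, smul_add, smul_neg, e1, e2, add_neg_cancel]
  have h2 := hτ.perp x hx _ h1
  have h3 : Psi = (Psi + -Psi') + Psi' := by rw [neg_add_cancel_right]
  rw [h3, Sys.CT_add_left hS hchi h1 h'.sel hb, h2, zero_add]

/-- `Fab` at a vertex. -/
theorem fab_eq (hS : S.Ok) (hΓ : Γ.Ok) (hτ : τ.Ok Γ k) (hx : x ∈ τ.Y Γ k) {Psi : G → V}
    (h : τ.IsTow Γ k x 0 Psi) : τ.Fab Γ k x = S.CT (Γ.chi x) Psi (Γ.ch τ.b x) :=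
  tow_CT hS hΓ hτ hx (psi_spec hx 0) h

theorem phiC_congr {I : Type*} [DecidableEq I] {j : ℕ} {Psi Psi' : Finset I → G → V}
    {R : Finset I} (h : ∀ T, T ⊆ R → Psi T = Psi' T) : PhiC S j Psi R = PhiC S j Psi' R := by
  funext s
  unfold PhiC
  congr 1
  refine alt_congr fun T hT => ?_
  rw [empty_union, h T hT]

theorem lst_phiC (l : Fin (r + 1)) {R : Finset ι} (hR : R ≠ univ) (j : ℕ) :
    PhiC S j (lst τ Γ k x0 x l) R = PhiC S j (τ.fam Γ k x0 x l) R := by
  apply phiC_congr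
  intro T hT
  apply lst_of_ne
  intro he
  apply hR
  rw [he] at hT
  exact eq_univ_iff_forall.2 fun a => hT (mem_univ a)

/-- The claim, second part: the sum of `Fab` over the cube. -/
theorem good_sum (hS : S.Ok) (hΓ : Γ.Ok) (hτ : τ.Ok Γ k) (hk : 1 ≤ k)
    (hI : Fintype.card ι = k + 2) (h : τ.Good Γ k x0 x) (ib : ι)
    (hb : ∀ i, i ≠ ib → τ.b.2 i = 0) {Th : G → V1} (htf : S.TF Th)
    (hrel : ThRel S k (Γ.del x0 x) (τ.fam Γ k x0 x 0) (univ.erase ib) Th)
    (hunr : ∀ v, v ≠ S.inf → Th (S.sg v) = 0) :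
    ∑ T : Finset ι, τ.Fab Γ k (mix T x0 x) =
      ee (Th (S.phi (Γ.pl ib (x0 ib))) + Th (S.phi (Γ.pl ib (x ib)))) (τ.b.2 ib) := by
  have hst := good_star hS hΓ hτ hk hI h 0
  have hlast := (good_last hS hΓ hτ hk hI h 0).1
  rw [hτ.jl_zero] at hst hlast
  have hrel' : ThRel S k (Γ.del x0 x) (lst τ Γ k x0 x 0) (univ.erase ib) Th := by
    intro s t
    rw [hrel s t]
    congr 1
    refine sum_congr rfl fun T _ => ?_
    rw [lst_phiC 0 _ k]
    intro he
    have h1 : ib ∈ univ.erase ib \ T := by rw [he]; exact mem_univ ib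
    exact notMem_erase ib univ (mem_sdiff.1 h1).1
  have h1 := top_sum hS (good_cubeOk hS hΓ (by omega) h) hst hlast hI (Γ.ch τ.b x0) τ.b.2
    (fun T => by
      have h2 := hτ.b_mem.2 _ (good_mem_Xs (by omega) h T)
      rwa [Grid.chi_mix, Grid.ch_mix] at h2) ib hb htf hrel' hunr
  have h2 : ∀ T : Finset ι, τ.Fab Γ k (mix T x0 x) =
      S.CT (chiC (Γ.chi x0) (Γ.del x0 x) T) (lst τ Γ k x0 x 0 T)
        (bC (Γ.ch τ.b x0) τ.b.2 (Γ.del x0 x) T) := by
    intro T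
    rw [← Grid.chi_mix, ← Grid.ch_mix]
    by_cases hT : T = univ
    · subst hT
      rw [Grid.mix_univ]
      exact fab_eq hS hΓ hτ (good_Y hS hΓ hτ hk hI h) (good_tow hS hΓ hτ hk hI h 0)
    · rw [lst_of_ne 0 hT]
      exact fab_eq hS hΓ hτ (good_vertex h hT).1 (good_fam h 0 hT)
  rw [sum_congr rfl fun T _ => h2 T, h1]
  rfl

/-- `Fab` at the last vertex. -/
theorem good_Fab (hS : S.Ok) (hΓ : Γ.Ok) (hτ : τ.Ok Γ k) (hk : 1 ≤ k)
    (hI : Fintype.card ι = k + 2) (h : τ.Good Γ k x0 x) (ib : ι)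
    (hb : ∀ i, i ≠ ib → τ.b.2 i = 0) {Th : G → V1} (htf : S.TF Th)
    (hrel : ThRel S k (Γ.del x0 x) (τ.fam Γ k x0 x 0) (univ.erase ib) Th)
    (hunr : ∀ v, v ≠ S.inf → Th (S.sg v) = 0) :
    τ.Fab Γ k x = (∑ T ∈ univ.erase univ, τ.Fab Γ k (mix T x0 x)) +
      ee (Th (S.phi (Γ.pl ib (x0 ib))) + Th (S.phi (Γ.pl ib (x ib)))) (τ.b.2 ib) := by
  have h1 := good_sum hS hΓ hτ hk hI h ib hb htf hrel hunr
  rw [← add_sum_erase univ _ (mem_univ (univ : Finset ι)), Grid.mix_univ] at h1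
  rw [← h1]
  generalize τ.Fab Γ k x = a
  generalize ∑ T ∈ univ.erase univ, τ.Fab Γ k (mix T x0 x) = b
  revert a b
  decide

/-- H7 for the grid: the functions `Phi_R`, `ib ∉ R`, vanish at the Frobenius elements of the places
of the direction `ib`. -/
theorem good_phi_zero (hS : S.Ok) (hΓ : Γ.Ok) (hτ : τ.Ok Γ k) (hk : 1 ≤ k)
    (hI : Fintype.card ι = k + 2) (h : τ.Good Γ k x0 x) {R : Finset ι} (hR : R.Nonempty)
    (hj : R.card ≤ k) {ib : ι} (hib : ib ∉ R) (e : Bool) :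
    ∀ s ∈ S.D (Γ.plc x0 x ib e), PhiC S k (τ.fam Γ k x0 x 0) R s = 0 := by
  intro s hs
  have hst := good_star hS hΓ hτ hk hI h 0
  have hlast := (good_last hS hΓ hτ hk hI h 0).1
  rw [hτ.jl_zero] at hst hlast
  have hRu : R ≠ univ := fun he => hib (he ▸ mem_univ ib)
  rw [← lst_phiC 0 hRu k]
  refine phiC_zero_on_D hS (good_cubeOk hS hΓ (by omega) h) hst (fun T _ => hlast T)
    (subset_univ R) hR hj hib (mem_univ ib) e
    (c := τ.col Γ k x0 0 ib) ?_ s hs
  intro T hT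
  have hTib : ib ∉ T := fun hc => hib (hT hc)
  have hne : (if e then insert ib T else T) ≠ univ := by
    intro he
    have h1 : (if e then insert ib T else T : Finset ι).card = k + 2 := by
      rw [he, card_univ, hI]
    have h2 : T.card ≤ k := (card_le_card hT).trans hj
    cases e with
    | true =>
      simp only [if_true] at h1
      rw [card_insert_of_notMem hTib] at h1
      omega
    | false =>
      simp only [Bool.false_eq_true, if_false] at h1
      omega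
  rw [lst_of_ne 0 hne]
  have h3 := congrFun (congrFun (good_vertex h hne).2 0) ib
  rw [← h3]
  unfold Twr.col
  change τ.psi Γ k _ 0 _ = τ.psi Γ k _ 0 _
  congr 2
  unfold Grid.plc
  congr 1
  cases e with
  | true =>
    simp only [if_true]
    exact (mix_mem x0 x (mem_insert_self ib T)).symm
  | false =>
    simp only [Bool.false_eq_true, if_false]
    exact (mix_notMem x0 x hTib).symm

end Pool.Agent.Sm.IC
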