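import Pool.Agent.Lib.Sm.I.Defs
import Pool.Agent.Lib.Sm.L.Vec

/-!
Project SMITH over `F_q(t)` (MP_48b749_nt), block I: the grid `gridG` (in the sense of `I/Defs`)
attached to a vector of primes `p : J → k[X]` and directions `dir : Dir m ↪ J`.

`XG d p dir i` is the symbol class of the prime `p (dir i)` with respect to the primes off the
directions, `rx x` the vector `p` with the primes in the directions replaced by `x`, `gcode c` the
code over the grid of the code `c` over `J`.
-/

set_option autoImplicit false

open Polynomial Finset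

namespace Pool.Agent.Sm

variable {k : Type} [Field k] (d : TwData k) {J : Type} [Fintype J] {m : ℕ} (p : J → k[X])
  (dir : Dir m ↪ J)

/-- The indices which are not directions. -/
noncomputable def offJ : Finset J := open Classical in univ.filter fun j => ∀ i, dir i ≠ j

/-- The primes of the degree of `p (dir i)` with the symbols of `p (dir i)` with respect to the bad
primes and to the primes off the directions. -/
abbrev XG (i : Dir m) : Type :=
  {x : Irr k (p (dir i)).natDegree // (∀ l, leg x.1 (d.ell l) = leg (p (dir i)) (d.ell l)) ∧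
    ∀ j, (∀ i', dir i' ≠ j) → leg x.1 (p j) = leg (p (dir i)) (p j)}

/-- The vector of primes at a point of the grid. -/
noncomputable def rx (x : ∀ i, XG d p dir i) : J → k[X] := repl p dir fun i => (x i).1.1

variable {G V Pl : Type} [Group G] [AddCommGroup V] [DistribMulAction G V]
variable (S : Sys G V Pl) (ch : k[X] → G → ZMod 2) (pl : k[X] → Pl)

/-- The grid. -/
noncomputable def gridG : Grid S (XG d p dir) where
  pl _ x := pl x.1.1
  th _ x := ch x.1.1
  chi0 s := ∑ j ∈ offJ dir, ch (p j) s
  bad := {v | v = S.inf ∨ (∃ l, v = pl (d.ell l)) ∨ ∃ j, (∀ i, dir i ≠ j) ∧ v = pl (p j)}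
  sm i j := leg (p (dir j)) (p (dir i))

/-- The code over the grid of a code over `J`. -/
noncomputable def gcode (c : CodeJ d J) : GCode G (Dir m) :=
  (fun s => ch (C d.u) s • c.1 + ∑ l, ch (d.ell l) s • c.2.1 l + ∑ j ∈ offJ dir, ch (p j) s • c.2.2 j,
    fun i => c.2.2 (dir i))

/-- The hypotheses on the degrees: the degrees in the directions are distinct, different from the
other degrees and larger than the degrees of the bad primes. -/
structure DegOk : Prop where
  dist : ∀ i j, (p j).natDegree = (p (dir i)).natDegree → j = dir i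
  ell : ∀ i l, (d.ell l).natDegree < (p (dir i)).natDegree

variable {d p dir S ch pl}

theorem mem_offJ {j : J} : j ∈ offJ dir ↔ ∀ i, dir i ≠ j := by
  classical
  simp [offJ]

theorem sum_dir {M : Type*} [AddCommMonoid M] (F : J → M) :
    ∑ j, F j = ∑ i, F (dir i) + ∑ j ∈ offJ dir, F j := by
  classical
  have h1 : (univ : Finset J) = univ.map dir ∪ offJ dir := by
    ext j
    simp only [mem_univ, mem_union, mem_map, true_and, mem_offJ, true_iff]
    by_cases h : ∃ i, dir i = j
    · exact Or.inl h
    · push Not at h
      exact Or.inr h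
  have h2 : Disjoint (univ.map dir) (offJ dir) := by
    rw [Finset.disjoint_left]
    intro j hj hj'
    rw [mem_map] at hj
    obtain ⟨i, -, hi⟩ := hj
    exact mem_offJ.mp hj' i hi
  rw [h1, sum_union h2, sum_map]

omit [Fintype J] in
@[simp] theorem rx_dir (x : ∀ i, XG d p dir i) (i : Dir m) : rx d p dir x (dir i) = (x i).1.1 :=
  repl_dir p dir _ i

omit [Fintype J] in
theorem rx_off (x : ∀ i, XG d p dir i) {j : J} (h : ∀ i, dir i ≠ j) :
    rx d p dir x j = p j := repl_off p dir _ h

/-- The twist at a point of the grid. -/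
theorem chi_gridG (x : ∀ i, XG d p dir i) :
    (gridG d p dir S ch pl).chi x = chiJ ch (rx d p dir x) := by
  funext s
  rw [chiJ, sum_dir (dir := dir)]
  simp only [rx_dir, Grid.chi, gridG]
  rw [add_comm]
  congr 1
  exact sum_congr rfl fun j hj => by rw [rx_off x (mem_offJ.mp hj)]

/-- The homomorphism of a code at a point of the grid. -/
theorem ch_gridG (c : CodeJ d J) (x : ∀ i, XG d p dir i) :
    (gridG d p dir S ch pl).ch (gcode d p dir ch c) x = homJ ch d (rx d p dir x) c := by
  funext s
  rw [homJ, sum_dir (dir := dir)]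
  simp only [rx_dir, Grid.ch, gridG, gcode]
  have : ∑ j ∈ offJ dir, ch (rx d p dir x j) s • c.2.2 j =
      ∑ j ∈ offJ dir, ch (p j) s • c.2.2 j :=
    sum_congr rfl fun j hj => by rw [rx_off x (mem_offJ.mp hj)]
  rw [this]
  abel

end Pool.Agent.Sm
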