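import Pool.Agent.Lib.Sm.I.Face
import Pool.Agent.Lib.Sm.H.Last

/-!
SMITH, block I, section I5 (part 1): the cube of two points of a grid.
-/

set_option autoImplicit false

open Finset

namespace Pool.Agent.Sm.Grid

open Pool.Agent.Sm.IT Pool.Agent.SmA

variable {G V Pl : Type*} [Group G] [AddCommGroup V] [DistribMulAction G V] {S : Sys G V Pl}
variable {ι : Type*} {X : ι → Type*}

/-- The places of the cube `(x0, x)`. -/
def plc (Γ : Grid S X) (x0 x : ∀ i, X i) (i : ι) (e : Bool) : Pl :=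
  Γ.pl i (if e then x i else x0 i)

/-- The symbols between all the places of the cube `(x0, x)` are the prescribed ones. -/
def SymOk (Γ : Grid S X) (x0 x : ∀ i, X i) : Prop :=
  ∀ i j, i ≠ j → ∀ e e' : Bool, Γ.th i (if e then x i else x0 i) (S.phi (Γ.plc x0 x j e')) = Γ.sm i j

variable {Γ : Grid S X}

theorem plc_ne (hΓ : Γ.Ok) {x0 x : ∀ i, X i} {i : ι} (hne : x0 i ≠ x i) :
    Γ.plc x0 x i true ≠ Γ.plc x0 x i false := by
  intro h
  exact hne (hΓ.pl_inj i h).symm

theorem plc_dir (hΓ : Γ.Ok) {x0 x : ∀ i, X i} {i j : ι} {e e' : Bool}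
    (h : Γ.plc x0 x i e = Γ.plc x0 x j e') : i = j :=
  hΓ.pl_dir _ _ _ _ h

theorem plc_bad (hΓ : Γ.Ok) (x0 x : ∀ i, X i) (i : ι) (e : Bool) : Γ.plc x0 x i e ∉ Γ.bad :=
  hΓ.pl_bad _ _

theorem plc_good (hΓ : Γ.Ok) (x0 x : ∀ i, X i) (i : ι) (e : Bool) : Γ.plc x0 x i e ∈ S.good :=
  hΓ.bad_good _ (hΓ.pl_bad _ _)

theorem del_sg_self (hΓ : Γ.Ok) {x0 x : ∀ i, X i} {i : ι} (hne : x0 i ≠ x i) (e : Bool) :
    Γ.del x0 x i (S.sg (Γ.plc x0 x i e)) = 1 := by
  have h0 := plc_ne hΓ hne
  unfold del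
  cases e with
  | true =>
    have h1 : Γ.th i (x0 i) (S.sg (Γ.plc x0 x i true)) = 0 :=
      hΓ.th_unr i (x0 i) _ (plc_bad hΓ x0 x i true) h0
    have h2 : Γ.th i (x i) (S.sg (Γ.plc x0 x i true)) = 1 := hΓ.th_self i (x i)
    rw [h1, h2, zero_add]
  | false =>
    have h1 : Γ.th i (x0 i) (S.sg (Γ.plc x0 x i false)) = 1 := hΓ.th_self i (x0 i)
    have h2 : Γ.th i (x i) (S.sg (Γ.plc x0 x i false)) = 0 :=
      hΓ.th_unr i (x i) _ (plc_bad hΓ x0 x i false) (Ne.symm h0)
    rw [h1, h2, add_zero]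

/-- The characters of the cube vanish on the inertia elements of the places off the cube. -/
theorem del_sg_off (hΓ : Γ.Ok) {x0 x : ∀ i, X i} {i : ι} {v : Pl} (hv : v ∉ Γ.bad)
    (h : ∀ e, v ≠ Γ.plc x0 x i e) : Γ.del x0 x i (S.sg v) = 0 := by
  unfold del
  rw [hΓ.th_unr i (x0 i) v hv (h false), hΓ.th_unr i (x i) v hv (h true), add_zero]

theorem del_D (hS : S.Ok) (hΓ : Γ.Ok) {x0 x : ∀ i, X i} {l i : ι} (hli : l ≠ i) (e : Bool)
    (hsym : ∀ e' : Bool, Γ.th l (if e' then x l else x0 l) (S.phi (Γ.plc x0 x i e)) = Γ.sm l i) :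
    ∀ s ∈ S.D (Γ.plc x0 x i e), Γ.del x0 x l s = 0 := by
  intro s hs
  unfold del
  have h1 : Γ.th l (x0 l) (S.phi (Γ.plc x0 x i e)) = Γ.sm l i := hsym false
  have h2 : Γ.th l (x l) (S.phi (Γ.plc x0 x i e)) = Γ.sm l i := hsym true
  have h3 := th_D hS hΓ hli (x0 l) (x l) (if e then x i else x0 i) (h1.trans h2.symm) s hs
  rw [h3, z2_add_self]

theorem del_bad (hΓ : Γ.Ok) (x0 x : ∀ i, X i) (i : ι) {v : Pl} (hv : v ∈ Γ.bad) :
    ∀ s ∈ S.D v, Γ.del x0 x i s = 0 := by
  intro s hs
  unfold del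
  rw [hΓ.th_bad v hv i (x0 i) (x i) s hs, z2_add_self]

variable [Fintype ι]

/-- The assumptions of block H hold for the cube of two points. -/
theorem cubeOk (hS : S.Ok) (hΓ : Γ.Ok) {x0 x : ∀ i, X i} (hne : ∀ i, x0 i ≠ x i)
    (hsym : Γ.SymOk x0 x) : CubeOk S (Γ.chi x0) (Γ.del x0 x) (Γ.plc x0 x) where
  chi0_hom := chi_hom hS hΓ x0
  del_hom := del_hom hS hΓ x0 x
  good := plc_good hΓ x0 x
  chi0_sg := by
    intro i e
    cases e with
    | true =>
      simp only [if_true]
      refine chi_sg_off hΓ x0 (plc_bad hΓ x0 x i true) fun j hj => ?_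
      have hji : i = j := hΓ.pl_dir i (x i) j (x0 j) hj
      subst hji
      exact hne i (hΓ.pl_inj i hj).symm
    | false => exact chi_sg_pl hΓ x0 i
  del_sg := fun i e => del_sg_self hΓ (hne i) e
  del_D := fun i e l hl => del_D hS hΓ hl e fun e' => hsym l i hl e' e
  other := by
    intro v hv
    by_cases hb : v ∈ Γ.bad
    · exact Or.inl fun i s hs => del_bad hΓ x0 x i hb s hs
    · refine Or.inr ⟨hΓ.bad_good v hb, chi_sg_off hΓ x0 hb fun i => hv i false, fun i => ?_⟩
      exact del_sg_off hΓ hb (hv i)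

variable [DecidableEq ι]

omit [Fintype ι] in
theorem mix_singleton (i : ι) (x0 x : ∀ i, X i) :
    mix {i} x0 x = Function.update x0 i (x i) := by
  funext j
  unfold mix
  by_cases hj : j = i
  · subst hj
    simp
  · simp [hj]

theorem mix_univ (x0 x : ∀ i, X i) : mix univ x0 x = x := by
  funext j
  simp [mix]

omit [Fintype ι] in
/-- The vertices inside a face depend only on the coordinates of the face. -/
theorem mix_congr {U T : Finset ι} (hT : T ⊆ U) {x0 x y : ∀ i, X i} (h : ∀ i ∈ U, x i = y i) :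
    mix T x0 x = mix T x0 y := by
  funext j
  unfold mix
  by_cases hj : j ∈ T
  · rw [if_pos hj, if_pos hj, h j (hT hj)]
  · rw [if_neg hj, if_neg hj]

/-- All the vertices but the last one are in `X^*`: the symbols are the prescribed ones. -/
theorem symOk_of_mix (hcard : 3 ≤ Fintype.card ι) {x0 x : ∀ i, X i}
    (h : ∀ T, T ≠ univ → mix T x0 x ∈ Γ.Xs) : Γ.SymOk x0 x := by
  intro i j hij e e'
  set T : Finset ι := (if e then {i} else ∅) ∪ (if e' then {j} else ∅) with hTdef
  have hT2 : T ⊆ {i, j} := by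
    intro a ha
    rw [hTdef, mem_union] at ha
    rcases ha with ha | ha
    · cases e with
      | true => simp only [if_true, mem_singleton] at ha; simp [ha]
      | false => simp at ha
    · cases e' with
      | true => simp only [if_true, mem_singleton] at ha; simp [ha]
      | false => simp at ha
  have hTu : T ≠ univ := by
    intro hu
    have h1 : T.card ≤ 2 := (card_le_card hT2).trans card_le_two
    rw [hu, card_univ] at h1
    omega
  have h1 := h T hTu i j hij
  have hi : mix T x0 x i = if e then x i else x0 i := by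
    unfold mix
    have : i ∈ T ↔ e = true := by
      rw [hTdef, mem_union]
      cases e <;> cases e' <;> simp [hij]
    by_cases he : e = true
    · rw [if_pos (this.2 he), if_pos he]
    · rw [if_neg fun h => he (this.1 h), if_neg he]
  have hj : mix T x0 x j = if e' then x j else x0 j := by
    unfold mix
    have : j ∈ T ↔ e' = true := by
      rw [hTdef, mem_union]
      cases e <;> cases e' <;> simp [hij.symm]
    by_cases he : e' = true
    · rw [if_pos (this.2 he), if_pos he]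
    · rw [if_neg fun h => he (this.1 h), if_neg he]
  rw [hi, hj] at h1
  exact h1

omit [Fintype ι] in
theorem mem_Xs_of_symOk {x0 x : ∀ i, X i} (h : Γ.SymOk x0 x) (T : Finset ι) :
    mix T x0 x ∈ Γ.Xs := by
  intro i j hij
  have h1 := h i j hij (decide (i ∈ T)) (decide (j ∈ T))
  unfold plc at h1
  simp only [decide_eq_true_eq] at h1
  exact h1

end Pool.Agent.Sm.Grid
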