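import Pool.Agent.Lib.Sm.I.BoxI
import Pool.Agent.Lib.SmA.Cover

/-!
Project SMITH over `F_q(t)` (MP_48b749_nt), block I (paper I7, I9): the abstract form of Theorem I.
-/

set_option autoImplicit false

open Finset Pool.Agent.SmA

namespace Pool.Agent.Sm

open Classical in
/-- Theorem I, abstract form: from the factorisation of `F` at the good pairs, the cancellation
over the last coordinate and the density of good pairs. -/
theorem grid_abs {κ : Type*} [Fintype κ] [DecidableEq κ] {X : Option κ → Type*}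
    [∀ i, Fintype (X i)] [∀ i, Nonempty (X i)]
    (Y : Finset (∀ i, X i)) (F : (∀ i, X i) → ℝ) (hF : ∀ x, |F x| ≤ 1)
    (Good : (∀ i, X i) → (∀ i, X i) → Prop) (hY : ∀ x0 x, Good x0 x → x ∈ Y)
    (hfac : ∀ x0, ∃ φ : Option κ → (∀ i, X i) → ℝ, (∀ j, Misses j (φ j)) ∧
      ∀ x, (if Good x0 x then (1 : ℝ) else 0) = ∏ j, φ j x)
    (h : (∀ i, X i) → (∀ i : κ, X (some i)) → X none → ℝ) (hh : ∀ x0 x P, |h x0 x P| ≤ 1)
    (hform : ∀ x0, ∃ ψ : Option κ → (∀ i, X i) → ℝ, (∀ j, Misses j (ψ j)) ∧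
      ∀ x, Good x0 x → F x = h x0 (fun i => x (some i)) (x none) * ∏ j, ψ j x)
    (Bd : ℝ)
    (hBd : ∀ x0 : ∀ i, X i, ∀ a b : ∀ i : κ, X (some i),
      (∀ i, a i ≠ b i ∧ a i ≠ x0 (some i) ∧ b i ≠ x0 (some i)) →
      |∑ P, ∏ V : Finset κ, h x0 (mix V a b) P| ≤ Bd)
    (γ : ℝ) (hγ0 : 0 ≤ γ)
    (hγ : Bd ^ 2 / (Fintype.card (X none) : ℝ) ^ 2 +
      3 * ∑ i : κ, 1 / (Fintype.card (X (some i)) : ℝ) ≤ γ ^ 2 ^ (Fintype.card κ + 1))
    (δ c : ℝ) (hδ : 0 ≤ δ)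
    (hB : ∀ B ⊆ Y, δ * Fintype.card (∀ i, X i) ≤ #B →
      c * (Fintype.card (∀ i, X i) : ℝ) ^ 2 ≤
        #{p : (∀ i, X i) × (∀ i, X i) | p.1 ∈ B ∧ p.2 ∈ B ∧ Good p.1 p.2} +
          ∑ i, (Fintype.card (∀ i, X i) : ℝ) ^ 2 / (Fintype.card (X i) : ℝ))
    (hc : ∑ i, 1 / (Fintype.card (X i) : ℝ) ≤ c / 2) (N : ℕ) (hN : 2 ≤ c * N) :
    |∑ x ∈ Y, F x| ≤ (δ + 2 ^ N * γ) * Fintype.card (∀ i, X i) := by
  refine covering Y F hF Good hY hfac γ ?_ δ (c / 2) hδ ?_ N (by linarith)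
  · intro x0 g hg
    obtain ⟨φ, hφ1, hφ2⟩ := hfac x0
    obtain ⟨ψ, hψ1, hψ2⟩ := hform x0
    have h1 : ∀ x, (if Good x0 x then (1 : ℝ) else 0) * F x * ∏ j, g j x =
        h x0 (fun i => x (some i)) (x none) * ∏ j, (φ j x * ψ j x * g j x) := by
      intro x
      rw [prod_mul_distrib, prod_mul_distrib, ← hφ2 x]
      by_cases hx : Good x0 x
      · rw [if_pos hx, hψ2 x hx]
        ring
      · rw [if_neg hx]
        ring
    rw [sum_congr rfl fun x _ => h1 x]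
    refine gamma_bound (fun i => x0 (some i)) (h x0) (hh x0) Bd (hBd x0) γ hγ0 hγ
      (fun j x => φ j x * ψ j x * g j x) (fun j => ⟨fun x => ?_, fun x z => ?_⟩)
    · rw [abs_mul, abs_mul]
      have e1 := (hφ1 j).1 x
      have e2 := (hψ1 j).1 x
      have e3 := (hg j).1 x
      exact mul_le_one₀ (mul_le_one₀ e1 (abs_nonneg _) e2) (abs_nonneg _) e3
    · change φ j _ * ψ j _ * g j _ = _
      rw [(hφ1 j).2 x z, (hψ1 j).2 x z, (hg j).2 x z]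
  · intro B hBY hBδ
    have h2 := hB B hBY hBδ
    have h3 : ∑ i, (Fintype.card (∀ i, X i) : ℝ) ^ 2 / (Fintype.card (X i) : ℝ) ≤
        c / 2 * (Fintype.card (∀ i, X i) : ℝ) ^ 2 := by
      have : ∑ i, (Fintype.card (∀ i, X i) : ℝ) ^ 2 / (Fintype.card (X i) : ℝ) =
          (∑ i, 1 / (Fintype.card (X i) : ℝ)) * (Fintype.card (∀ i, X i) : ℝ) ^ 2 := by
        rw [sum_mul]
        exact sum_congr rfl fun i _ => by ring
      rw [this]
      gcongr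
    linarith

end Pool.Agent.Sm
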