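import Pool.Agent.Lib.Sm.I.GridAbs
import Pool.Agent.Lib.Sm.I.UData
import Pool.Agent.Lib.Sm.I.Cancel
import Pool.Agent.Lib.Sm.I.Many

/-!
SMITH, block I: the theorem over the abstract grid (grid_abs, I4, I5, cancellation).
-/

set_option autoImplicit false

open Finset Polynomial

namespace Pool.Agent.Sm

open Pool.Agent.Sm.IT Pool.Agent.SmA

/-- The density constant of I4. -/
noncomputable def cGr (m r N : ℕ) (δ : ℝ) : ℝ :=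
  (δ / nCol m r (m + 2)) ^ (2 ^ (m + 2)) / (nCls N r (m + 2) : ℝ) ^ (2 ^ (m + 2))

/-- The bound for the sums over the last coordinate. -/
noncomputable def bGr (m b R a q C D : ℕ) : ℝ :=
  C * (2 ^ b * ((2 : ℝ) ^ m * (4 : ℝ) ^ 2 ^ m) ^ 2 ^ (m + 1) * (R + 1)) ^ a * (q : ℝ) ^ (D / 2)

/-- The functional `w ↦ ee w e'`. -/
def eeHom (e' : V1) : V1 →+ ZMod 2 where
  toFun := fun w => ee w e'
  map_zero' := by simp [ee]
  map_add' := fun v w => ee_add_left v w e'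

variable {G V Pl : Type*} [Group G] [AddCommGroup V] [DistribMulAction G V] {S : Sys G V Pl}
variable {m r : ℕ} {X : Option (Option (Fin m)) → Type*} {Γ : Grid S X}
variable {τ : Twr G (Option (Option (Fin m))) r}
variable [∀ i, Fintype (X i)] [∀ i, Nonempty (X i)]

open Classical in
/-- Theorem I over an abstract grid. -/
theorem grid_end' {F : Type*} [Field F] (hS : S.Ok) (hΓ : Γ.Ok) (hτ : τ.Ok Γ m) (hm : 1 ≤ m)
    (hσ : τ.sig 0 = {some none}) (hb : ∀ i, i ≠ none → τ.b.2 i = 0)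
    (hee : ee ((τ.c 0).2 (some none)) (τ.b.2 none) = 1)
    (N0 : ℕ) (hN0 : 0 < N0) (hsel : ∀ x ∈ τ.Y Γ m, {b | S.IsSel1 (Γ.chi x) b}.Finite ∧
      {b | S.IsSel1 (Γ.chi x) b}.ncard ≤ N0)
    (pl : F[X] → Pl) {q a C : ℕ}
    (hC : ChebOdd S.NN (fun P => S.sg (pl P)) (fun P => S.phi (pl P)) q a C)
    (po : ∀ i, X i → F[X]) (hpo : ∀ i x, Γ.pl i x = pl (po i x))
    (hpl : ∀ i x P, P.Monic → Irreducible P → pl P = Γ.pl i x → P = po i x)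
    {b : ℕ} (χ : Fin b → G → ZMod 2) (hχ : ∀ j, S.HomG (χ j)) (cc : Fin b → ZMod 2)
    (D : ℕ) (hD : 4 ∣ D)
    (hfin : {P : F[X] | P.Monic ∧ Irreducible P ∧ P.natDegree = D}.Finite)
    (hX : ∀ P : F[X], (∃ x : X none, po none x = P) ↔
      P.Monic ∧ Irreducible P ∧ P.natDegree = D ∧ ∀ j, χ j (S.phi (pl P)) = cc j)
    (B0 : Finset F[X])
    (hB0 : ∀ P : F[X], P.Monic → Irreducible P →
      pl P ∈ Γ.bad ∨ (∃ j, χ j (S.sg (pl P)) ≠ 0) → P ∈ B0)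
    (hB0D : ∀ P ∈ B0, P.natDegree ≠ D)
    (hpoD : ∀ i x, (po (some i) x).natDegree ≠ D)
    (rr : ℕ) (hrr : ∀ x y z : ∀ i : Option (Fin m), X (some i), ∑ P ∈ B0, P.natDegree +
      ∑ i, ((po (some i) (x i)).natDegree + (po (some i) (y i)).natDegree +
        (po (some i) (z i)).natDegree) ≤ rr)
    (γ : ℝ) (hγ0 : 0 ≤ γ)
    (hγ : (C * (2 ^ b * (2 ^ m * 4 ^ 2 ^ m) ^ 2 ^ (m + 1) * ((rr : ℝ) + 1)) ^ a *
        (q : ℝ) ^ (D / 2)) ^ 2 / (Fintype.card (X none) : ℝ) ^ 2 +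
      3 * ∑ i : Option (Fin m), 1 / (Fintype.card (X (some i)) : ℝ) ≤ γ ^ 2 ^ (m + 2))
    (δ c : ℝ) (hδ : 0 ≤ δ)
    (hc' : c ≤ (δ / nCol m r (m + 2)) ^ 2 ^ (m + 2) / (nCls N0 r (m + 2) : ℝ) ^ 2 ^ (m + 2))
    (hc : ∑ i, 1 / (Fintype.card (X i) : ℝ) ≤ c / 2) (N : ℕ) (hN : 2 ≤ c * N) :
    |∑ x ∈ univ with x ∈ τ.Y Γ m, (if τ.Fab Γ m x = 0 then (1 : ℝ) else -1)| ≤
      (δ + 2 ^ N * γ) * Fintype.card (∀ i, X i) := by
  have hcard : Fintype.card (Option (Option (Fin m))) = m + 2 := by simp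
  refine grid_abs _ (fun x => if τ.Fab Γ m x = 0 then (1 : ℝ) else -1) (fun x => ?_)
    (fun x0 x => τ.Good Γ m x0 x)
    (fun x0 x h => mem_filter.2 ⟨mem_univ x, IC.good_Y hS hΓ hτ hm hcard h⟩)
    (fun x0 => UD.hfac τ Γ m x0)
    (fun x0 x' P => CA.hh τ Γ (eeHom (τ.b.2 none)) x0 x' P)
    (fun x0 x' P => CA.hh_abs _ _ _) (fun x0 => ?_)
    (C * (2 ^ b * (2 ^ m * 4 ^ 2 ^ m) ^ 2 ^ (m + 1) * ((rr : ℝ) + 1)) ^ a * (q : ℝ) ^ (D / 2))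
    (fun x0 ya yb hab => ?_) γ hγ0 ?_ δ c hδ (fun B hB hBδ => ?_) hc N hN
  · beta_reduce
    split_ifs <;> simp
  · obtain ⟨ψ, hψ1, hψ2⟩ := UD.form hS hΓ hτ hm hσ hb (eeHom (τ.b.2 none)) (fun w => rfl) x0
    refine ⟨ψ, hψ1, fun x hx => ?_⟩
    have h1 : CA.hh τ Γ (eeHom (τ.b.2 none)) x0 (fun i => x (some i)) (x none) =
        (τ.UU Γ x0 (fun i => x (some i))).Kt (eeHom (τ.b.2 none)) (S.phi (Γ.pl none (x none))) :=
      if_pos (UD.good_FG hx)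
    rw [h1]
    exact hψ2 x hx
  · exact CA.hBd_abs hS hΓ hτ hm hσ rfl (eeHom (τ.b.2 none)) hee pl hC po hpo hpl χ hχ cc D rr
      hD hX hfin.toFinset (fun P => by simp) B0 hB0 hB0D hpoD hrr x0 ya yb hab
  · have h1 : Fintype.card (Option (Fin m)) + 1 = m + 2 := by simp
    rw [h1]
    exact hγ
  · have h1 := many_good hS hΓ hτ N0 hN0 hsel B (fun x hx => (mem_filter.1 (hB hx)).2) δ hδ hBδ
    rw [hcard] at h1
    refine le_trans ?_ h1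
    gcongr

/-- The same with explicit constants. -/
theorem grid_end {F : Type*} [Field F] (hS : S.Ok) (hΓ : Γ.Ok) (hτ : τ.Ok Γ m) (hm : 1 ≤ m)
    (hσ : τ.sig 0 = {some none}) (hb : ∀ i, i ≠ none → τ.b.2 i = 0)
    (hee : ee ((τ.c 0).2 (some none)) (τ.b.2 none) = 1)
    (N0 : ℕ) (hN0 : 0 < N0) (hsel : ∀ x ∈ τ.Y Γ m, {b | S.IsSel1 (Γ.chi x) b}.Finite ∧
      {b | S.IsSel1 (Γ.chi x) b}.ncard ≤ N0)
    (pl : F[X] → Pl) {q a C : ℕ}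
    (hC : ChebOdd S.NN (fun P => S.sg (pl P)) (fun P => S.phi (pl P)) q a C)
    (po : ∀ i, X i → F[X]) (hpo : ∀ i x, Γ.pl i x = pl (po i x))
    (hpl : ∀ i x P, P.Monic → Irreducible P → pl P = Γ.pl i x → P = po i x)
    {b : ℕ} (χ : Fin b → G → ZMod 2) (hχ : ∀ j, S.HomG (χ j)) (cc : Fin b → ZMod 2)
    (D : ℕ) (hD : 4 ∣ D)
    (hfin : {P : F[X] | P.Monic ∧ Irreducible P ∧ P.natDegree = D}.Finite)
    (hX : ∀ P : F[X], (∃ x : X none, po none x = P) ↔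
      P.Monic ∧ Irreducible P ∧ P.natDegree = D ∧ ∀ j, χ j (S.phi (pl P)) = cc j)
    (B0 : Finset F[X])
    (hB0 : ∀ P : F[X], P.Monic → Irreducible P →
      pl P ∈ Γ.bad ∨ (∃ j, χ j (S.sg (pl P)) ≠ 0) → P ∈ B0)
    (hB0D : ∀ P ∈ B0, P.natDegree ≠ D)
    (hpoD : ∀ i x, (po (some i) x).natDegree ≠ D)
    (rr : ℕ) (hrr : ∀ x y z : ∀ i : Option (Fin m), X (some i), ∑ P ∈ B0, P.natDegree +
      ∑ i, ((po (some i) (x i)).natDegree + (po (some i) (y i)).natDegree +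
        (po (some i) (z i)).natDegree) ≤ rr)
    (Y : Finset (∀ i, X i)) (hY : ∀ x, x ∈ Y ↔ x ∈ τ.Y Γ m)
    (γ : ℝ) (hγ0 : 0 ≤ γ)
    (hγ : bGr m b rr a q C D ^ 2 / (Fintype.card (X none) : ℝ) ^ 2 +
      3 * ∑ i : Option (Fin m), 1 / (Fintype.card (X (some i)) : ℝ) ≤ γ ^ 2 ^ (m + 2))
    (δ : ℝ) (hδ : 0 ≤ δ)
    (hc : ∑ i, 1 / (Fintype.card (X i) : ℝ) ≤ cGr m r N0 δ / 2) (M : ℕ)
    (hM : 2 ≤ cGr m r N0 δ * M) :
    |∑ x ∈ Y, (if τ.Fab Γ m x = 0 then (1 : ℝ) else -1)| ≤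
      (δ + 2 ^ M * γ) * Fintype.card (∀ i, X i) := by
  classical
  have h1 := grid_end' hS hΓ hτ hm hσ hb hee N0 hN0 hsel pl hC po hpo hpl χ hχ cc D hD hfin hX B0
    hB0 hB0D hpoD rr hrr γ hγ0 hγ δ (cGr m r N0 δ) hδ le_rfl hc M hM
  have h2 : Y = univ.filter fun x => x ∈ τ.Y Γ m := by
    ext x
    rw [hY]
    simp
  rw [h2]
  exact h1

end Pool.Agent.Sm
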