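import Pool.Agent.Lib.Sm.I.GridOk
import Pool.Agent.Lib.Sm.I.Delta
import Pool.Agent.Lib.Sm.G.TowerJ
import Pool.Agent.Lib.Sm.G.TowerC

/-!
SMITH, block I (I2, I3): the type data `Twr` of a grid from a basis adapted to the flag (`Supp`);
the points of the type are the points `x` with `TypEq`.
-/

set_option autoImplicit false

open Polynomial Finset

namespace Pool.Agent.Sm.IT2

open Pool.Agent.Sm Pool.Agent.Sm.IT

variable {k : Type} [Field k] {d : TwData k} {J : Type} [Fintype J] {m : ℕ} {p : J → k[X]}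
  {dir : Dir m ↪ J}
variable {G V Pl : Type} [Group G] [AddCommGroup V] [DistribMulAction G V]
variable {S : Sys G V Pl} {ch : k[X] → G → ZMod 2} {pl : k[X] → Pl}

/-! ### The base point -/

/-- The vector `p` as a point of the grid. -/
def xp (hp : PVec d p) (dir : Dir m ↪ J) : ∀ i, XG d p dir i := fun i =>
  ⟨⟨p (dir i), hp.monic _, hp.irr _, rfl⟩, fun _ => rfl, fun _ _ => rfl⟩

omit [Fintype J] in
theorem rx_xp (hp : PVec d p) : rx d p dir (xp hp dir) = p := by
  funext j
  by_cases h : ∃ i, dir i = j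
  · obtain ⟨i, rfl⟩ := h
    rw [rx_dir]
    rfl
  · push Not at h
    rw [rx_off _ h]

section fin

variable [Finite k]

theorem xp_mem (h : ChOk S ch d pl) (hp : PVec d p) (hd : DegOk d p dir) :
    xp hp dir ∈ (gridG d p dir S ch pl).Xs := by
  rw [mem_Xs h hp hd, rx_xp]
  exact ⟨fun _ => rfl, fun _ _ => rfl, fun _ _ => rfl⟩

/-- The frame does not depend on the point. -/
theorem FJ_rx (h : ChOk S ch d pl) (hp : PVec d p) (hd : DegOk d p dir) (hS : S.Ok)
    {x : ∀ i, XG d p dir i} (hx : x ∈ (gridG d p dir S ch pl).Xs) :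
    FJ S ch d (rx d p dir x) = FJ S ch d p := by
  ext c
  rw [← gcode_mem_FF h hp hd hS hx, gcode_mem_FF h hp hd hS (xp_mem h hp hd), rx_xp]

/-- The size of the 2-Selmer group at the points of the grid. -/
theorem sel_card (h : ChOk S ch d pl) (hp : PVec d p) (hd : DegOk d p dir) (hS : S.Ok)
    (hco : ∀ x : ∀ i, XG d p dir i, CodeOk S ch d (rx d p dir x))
    {x : ∀ i, XG d p dir i} (hx : x ∈ (gridG d p dir S ch pl).Xs) :
    {b | S.IsSel1 ((gridG d p dir S ch pl).chi x) b}.Finite ∧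
      {b | S.IsSel1 ((gridG d p dir S ch pl).chi x) b}.ncard = Nat.card (FJ S ch d p) := by
  have h1 : Set.BijOn (homJ ch d (rx d p dir x)) (FJ S ch d p)
      {b | S.IsSel1 ((gridG d p dir S ch pl).chi x) b} := by
    rw [chi_gridG, ← FJ_rx h hp hd hS hx]
    refine ⟨fun c hc => hc, fun c _ c' _ hcc => (hco x).inj hcc, fun b hb => ?_⟩
    obtain ⟨c, hc⟩ := (hco x).surj b hb
    refine ⟨c, ?_, hc⟩
    change S.IsSel1 _ _
    rw [hc]
    exact hb
  have hfin : (FJ S ch d p).Finite := Set.toFinite _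
  refine ⟨h1.finite_iff_finite.1 hfin, ?_⟩
  rw [← h1.image_eq, h1.injOn.ncard_image, ← Nat.card_coe_set_eq]

end fin

/-! ### The type data -/

/-- The type data over the grid from the data over `J`. -/
noncomputable def mkTwr (d : TwData k) (p : J → k[X]) (dir : Dir m ↪ J) (ch : k[X] → G → ZMod 2)
    {n : ℕ} (c : Fin (n + 1) → CodeJ d J) (jl : Fin (n + 1) → ℕ)
    (f : Fin (n + 1) → CodeJ d J → ZMod 2) (sig : Fin (n + 1) → Finset (Dir m)) (b : CodeJ d J) :
    Twr G (Dir m) n where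
  c l := gcode d p dir ch (c l)
  jl := jl
  fl l g := f l (Function.invFun (gcode d p dir ch) g)
  sig := sig
  b := gcode d p dir ch b

/-- Towers over the grid and over `J`. -/
theorem isTow_iff [Finite k] (h : ChOk S ch d pl) (hp : PVec d p) (hd : DegOk d p dir)
    (hS : S.Ok) {n : ℕ} {c : Fin (n + 1) → CodeJ d J} {jl : Fin (n + 1) → ℕ}
    {f : Fin (n + 1) → CodeJ d J → ZMod 2} {sig : Fin (n + 1) → Finset (Dir m)} {b : CodeJ d J}
    {x : ∀ i, XG d p dir i} (hx : x ∈ (gridG d p dir S ch pl).Xs) (l : Fin (n + 1))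
    (Psi : G → V) :
    (mkTwr d p dir ch c jl f sig b).IsTow (gridG d p dir S ch pl) m x l Psi ↔
      Abv S ch d (rx d p dir x) (jl l) (c l) Psi ∧
        (jl l < m → ∀ c' ∈ FJ S ch d p,
          S.CT (chiJ ch (rx d p dir x)) Psi (homJ ch d (rx d p dir x) c') = f l c') := by
  have hinv : ∀ c' : CodeJ d J, Function.invFun (gcode d p dir ch) (gcode d p dir ch c') = c' :=
    Function.leftInverse_invFun (gcode_inj h hp)
  constructor
  · intro ht
    have h1 := ht.sel
    have h2 := ht.base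
    rw [chi_gridG] at h1
    refine ⟨⟨h1, fun s => ?_⟩, fun hl c' hc' => ?_⟩
    · rw [← ch_gridG (S := S) (pl := pl)]
      exact h2 s
    · have h3 := ht.val hl (gcode d p dir ch c') (by
        rw [gcode_mem_FF h hp hd hS hx, FJ_rx h hp hd hS hx]
        exact hc')
      rw [chi_gridG, ch_gridG] at h3
      rw [h3]
      change f l (Function.invFun (gcode d p dir ch) (gcode d p dir ch c')) = f l c'
      rw [hinv]
  · rintro ⟨⟨h1, h2⟩, h3⟩
    refine ⟨?_, fun s => ?_, fun hl g hg => ?_⟩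
    · rw [chi_gridG]
      exact h1
    · change _ = S.iota ((gridG d p dir S ch pl).ch (gcode d p dir ch (c l)) x s)
      rw [ch_gridG]
      exact h2 s
    · obtain ⟨c', rfl⟩ := exists_gcode h hp hg.1
      have hc' : c' ∈ FJ S ch d p := by
        rw [gcode_mem_FF h hp hd hS hx, FJ_rx h hp hd hS hx] at hg
        exact hg
      rw [chi_gridG, ch_gridG]
      change _ = f l (Function.invFun (gcode d p dir ch) (gcode d p dir ch c'))
      rw [hinv]
      exact h3 hl c' hc'

/-! ### The basis -/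

/-- The basis of `Supp` is adapted in the sense of the tower. -/
theorem adapted_of_supp (hS : S.Ok) (hc : CodeOk S ch d p) {a b : CodeJ d J}
    (su : Supp d (FJ S ch d p) (Lfl (FJ S ch d p) (LamJ S ch d p)) m a b dir) :
    Adapted (twJ S hS ch d p).Fs (twJ S hS ch d p).L (twJ S hS ch d p).Kp m su.c where
  mem i := (mem_twJ_Fs S hS ch d p _).2 (su.mem i)
  indep x hx := by
    obtain ⟨w, hw⟩ := (mem_twJ_Kp hS hc _).1 hx
    exact su.indep x w hw
  span a ha := by
    obtain ⟨α, w, hw⟩ := su.span a ((mem_twJ_Fs S hS ch d p a).1 ha)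
    refine ⟨α, (mem_twJ_Kp hS hc _).2 ⟨w, ?_⟩⟩
    rw [hw, add_sub_cancel_right]
  adapt j hj hjm x hx i hi := by
    have h1 : ∑ i, x i • su.c i ∈ Lfl (FJ S ch d p) (LamJ S ch d p) j := by
      rw [Lfl_eq hS hc hj]
      exact hx
    obtain ⟨α, w, hw, hα⟩ := su.adapted j hj hjm _ h1
    have h2 : ∑ i, (x i - α i) • su.c i = kapJ d J w := by
      simp only [sub_smul, sum_sub_distrib]
      rw [hw, add_sub_cancel_right]
    have h3 := congrFun (su.indep (fun i => x i - α i) w h2) i
    have h4 : x i = α i := sub_eq_zero.1 h3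
    rw [← mem_Lfl_iff_tw hS hc hj]
    exact hα i (h4 ▸ hi)

/-- The number of elements of the basis. -/
theorem supp_r_le (hS : S.Ok) {a b : CodeJ d J}
    (su : Supp d (FJ S ch d p) (Lfl (FJ S ch d p) (LamJ S ch d p)) m a b dir) :
    2 ^ su.r ≤ Nat.card (FJ S ch d p) := by
  let f : (Fin su.r → ZMod 2) → FJ S ch d p := fun x => ⟨∑ l, x l • su.c l,
    (mem_twJ_Fs S hS ch d p _).1 (Submodule.sum_mem _ fun l _ => Submodule.smul_mem _ _
      ((mem_twJ_Fs S hS ch d p _).2 (su.mem l)))⟩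
  have hf : Function.Injective f := by
    intro x y hxy
    have h1 : ∑ l, x l • su.c l = ∑ l, y l • su.c l := congrArg Subtype.val hxy
    have h2 : ∑ l, (x l - y l) • su.c l = kapJ d J 0 := by
      simp only [sub_smul, sum_sub_distrib]
      rw [h1, sub_self]
      unfold kapJ
      simp only [map_zero]
      rfl
    have h3 := su.indep (fun l => x l - y l) 0 h2
    funext l
    exact sub_eq_zero.1 (congrFun h3 l)
  have h1 := Nat.card_le_card_of_injective f hf
  rwa [Nat.card_fun, Nat.card_zmod, Nat.card_eq_fintype_card, Fintype.card_fin] at h1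

section main

variable [Finite k]

/-- The points of a type: for a point `x` of `X^*` there are towers with the data `c, jl, f` iff the
relations below level `m` are those of `p`. -/
theorem typ_iff (h : ChOk S ch d pl) (hp : PVec d p) (hd : DegOk d p dir) (hS : S.Ok)
    (hco : ∀ x : ∀ i, XG d p dir i, CodeOk S ch d (rx d p dir x)) (hcp : CodeOk S ch d p)
    (hm : 1 ≤ m) {r : ℕ} {c : Fin r → CodeJ d J} {jl : Fin r → ℕ}
    {f : Fin r → CodeJ d J → ZMod 2}
    (had : Adapted (twJ S hS ch d p).Fs (twJ S hS ch d p).L (twJ S hS ch d p).Kp m c)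
    (h1 : ∀ l, 1 ≤ jl l) (h2 : ∀ l, jl l ≤ m) (h3 : ∀ l, c l ∈ (twJ S hS ch d p).L (jl l))
    (h4 : ∀ l, jl l < m → c l ∉ (twJ S hS ch d p).L (jl l + 1))
    (h5 : ∀ l, jl l < m → (c l, f l) ∈ (twJ S hS ch d p).Lam (jl l))
    {x : ∀ i, XG d p dir i} (hx : x ∈ (gridG d p dir S ch pl).Xs) :
    (∀ l, ∃ Psi, Abv S ch d (rx d p dir x) (jl l) (c l) Psi ∧
        (jl l < m → ∀ c' ∈ FJ S ch d p,
          S.CT (chiJ ch (rx d p dir x)) Psi (homJ ch d (rx d p dir x) c') = f l c')) ↔
      ∀ i, 1 ≤ i → i < m → LamJ S ch d (rx d p dir x) i = LamJ S ch d p i := by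
  have hF := FJ_rx h hp hd hS hx
  have hcx := hco x
  set q := rx d p dir x with hq
  have hFs : (twJ S hS ch d q).Fs = (twJ S hS ch d p).Fs := by
    apply SetLike.coe_injective
    rw [← FJ_eq hS, ← FJ_eq hS, hF]
  have hKp : (twJ S hS ch d q).Kp = (twJ S hS ch d p).Kp := by
    ext a
    rw [mem_twJ_Kp hS hcx, mem_twJ_Kp hS hcp]
  constructor
  · intro ht i hi him
    choose Psi hP1 hP2 using ht
    obtain ⟨Psi0, e1, e2, e3⟩ := Tower.exists_Psi (W := twJ S hS ch d p) (k := m) (jl := jl)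
      (f := f) h5 (fun l _ => h3 l)
    rw [LamJ_eq hS hcx hi, LamJ_eq hS hcp hi]
    refine Tower.lam_same (twJ_ok hS hcx) (twJ_ok hS hcp) hFs hKp (k := m) (cc := c) ?_
      (jl := jl) (f := f) ?_ (Psi := Psi) (fun l => ((abv_iff hS).1 (hP1 l)).1)
      (fun l => ((abv_iff hS).1 (hP1 l)).2) ?_ (Psi' := Psi0) e1 e2 e3 hi him
    · intro a ha
      rw [hFs] at ha
      obtain ⟨y, hy⟩ := had.span a ha
      exact ⟨y, by rw [hKp]; exact hy⟩
    · intro y hy h0
      exact Tower.f_indep (twJ_ok hS hcp) had h1 h4 h5 y hy (fun D hD => h0 D (hFs ▸ hD))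
    · intro l hl D hD
      rw [twJ_PV hS]
      refine hP2 l hl D ?_
      rw [hFs] at hD
      exact (mem_twJ_Fs S hS ch d p D).1 hD
  · intro ht l
    by_cases hl : jl l < m
    · have e1 : (c l, f l) ∈ LamJ S ch d q (jl l) := by
        rw [ht _ (h1 l) hl, LamJ_eq hS hcp (h1 l)]
        exact h5 l hl
      obtain ⟨-, Psi, e2, e3, -⟩ := e1
      refine ⟨Psi, e2, fun _ c' hc' => ?_⟩
      exact (e3 c' (by rw [hF]; exact hc')).symm
    · have hjl : jl l = m := le_antisymm (h2 l) (not_lt.1 hl)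
      have e0 : Lfl (FJ S ch d q) (LamJ S ch d q) m = Lfl (FJ S ch d p) (LamJ S ch d p) m := by
        rw [hF]
        obtain ⟨m', rfl⟩ := Nat.exists_eq_add_of_le' hm
        cases m' with
        | zero => rfl
        | succ m' =>
          change {a | (a, 0) ∈ LamJ S ch d q (m' + 1)} = {a | (a, 0) ∈ LamJ S ch d p (m' + 1)}
          rw [ht (m' + 1) (by omega) (by omega)]
      have e1 : c l ∈ Lfl (FJ S ch d q) (LamJ S ch d q) m := by
        rw [e0, mem_Lfl_iff_tw hS hcp hm, ← hjl]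
        exact h3 l
      obtain ⟨Psi, e2⟩ := (mem_Lfl_iff hS hcx hm _).1 e1
      rw [hjl]
      exact ⟨Psi, e2, fun hh => absurd hh (lt_irrefl m)⟩

/-- The type data of a grid. -/
theorem exists_twr (h : ChOk S ch d pl) (hp : PVec d p) (hd : DegOk d p dir) (hS : S.Ok)
    (hco : ∀ x : ∀ i, XG d p dir i, CodeOk S ch d (rx d p dir x)) (hm : 1 ≤ m) {a b : CodeJ d J}
    (ha : a ∈ Lfl (FJ S ch d p) (LamJ S ch d p) m) (hb : b ∈ FJ S ch d p)
    (hP : Perp (LamJ S ch d p) (m - 1) b)
    (su : Supp d (FJ S ch d p) (Lfl (FJ S ch d p) (LamJ S ch d p)) m a b dir) :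
    ∃ (n : ℕ) (τ : Twr G (Dir m) n), n + 1 = su.r ∧ τ.Ok (gridG d p dir S ch pl) m ∧
      τ.sig 0 = {some none} ∧ (τ.c 0).2 (some none) = su.e ∧ (∀ i, i ≠ none → τ.b.2 i = 0) ∧
      τ.b.2 none = su.e' ∧
      (∀ x, x ∈ τ.Y (gridG d p dir S ch pl) m ↔ TypEq S ch d m (rx d p dir x) p) ∧
      ∀ x ∈ τ.Y (gridG d p dir S ch pl) m, τ.Fab (gridG d p dir S ch pl) m x =
        FFJ S ch d (rx d p dir x) m a b := by
  classical
  have hcp : CodeOk S ch d p := by
    have := hco (xp hp dir)
    rwa [rx_xp] at this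
  -- the order of the basis
  obtain ⟨n, hn⟩ : ∃ n, n + 1 = su.r := ⟨su.r - 1, by
    have := su.l1.2
    omega⟩
  obtain ⟨e, he⟩ : ∃ e : Fin (n + 1) ≃ Fin su.r, e 0 = su.l1 :=
    ⟨(finCongr hn).trans (Equiv.swap (finCongr hn 0) su.l1), by
      rw [Equiv.trans_apply, Equiv.swap_apply_left]⟩
  have had := adapted_of_supp hS hcp su
  have had' : Adapted (twJ S hS ch d p).Fs (twJ S hS ch d p).L (twJ S hS ch d p).Kp m
      (fun l => su.c (e l)) := by
    have hsum : ∀ x : Fin (n + 1) → ZMod 2,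
        ∑ l, x l • su.c (e l) = ∑ l, x (e.symm l) • su.c l := by
      intro x
      rw [← Equiv.sum_comp e (fun l => x (e.symm l) • su.c l)]
      exact sum_congr rfl fun l _ => by rw [Equiv.symm_apply_apply]
    refine ⟨fun i => had.mem _, fun x hx => ?_, fun a ha => ?_, fun j hj hjm x hx i hi => ?_⟩
    · rw [hsum] at hx
      have h1 := had.indep (fun l => x (e.symm l)) hx
      funext l
      have h2 := congrFun h1 (e l)
      rwa [Equiv.symm_apply_apply] at h2
    · obtain ⟨y, hy⟩ := had.span a ha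
      refine ⟨fun l => y (e l), ?_⟩
      rw [hsum]
      simp only [Equiv.apply_symm_apply]
      exact hy
    · rw [hsum] at hx
      have h1 := had.adapt j hj hjm (fun l => x (e.symm l)) hx (e i)
      rw [Equiv.symm_apply_apply] at h1
      exact h1 hi
  obtain ⟨jl, f, h1, h2, h3, h4, h5, h6⟩ := Tower.exists_jl (twJ_ok hS hcp) hm
    (cc := fun l => su.c (e l)) had'.mem
  set sig : Fin (n + 1) → Finset (Dir m) := fun l =>
    if l = 0 then {some none} else if e l = su.l0 then {none} else ∅ with hsig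
  have hY : ∀ x, x ∈ (mkTwr d p dir ch (fun l => su.c (e l)) jl f sig b).Y
      (gridG d p dir S ch pl) m ↔ TypEq S ch d m (rx d p dir x) p := by
    intro x
    constructor
    · rintro ⟨hx, ht⟩
      refine ⟨(mem_Xs h hp hd x).1 hx, FJ_rx h hp hd hS hx, ?_⟩
      rw [← typ_iff h hp hd hS hco hcp hm had' h1 h2 h3 h4 h5 hx]
      intro l
      obtain ⟨Psi, hPsi⟩ := ht l
      exact ⟨Psi, (isTow_iff h hp hd hS hx l Psi).1 hPsi⟩
    · rintro ⟨hx, -, ht⟩
      have hx' := (mem_Xs (S := S) h hp hd x).2 hx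
      refine ⟨hx', fun l => ?_⟩
      obtain ⟨Psi, hPsi⟩ :=
        (typ_iff h hp hd hS hco hcp hm had' h1 h2 h3 h4 h5 hx').2 ht l
      exact ⟨Psi, (isTow_iff h hp hd hS hx' l Psi).2 hPsi⟩
  have hjl0 : jl 0 = m := by
    apply h6
    change su.c (e 0) ∈ _
    rw [he, su.c_l1, ← mem_Lfl_iff_tw hS hcp hm]
    exact ha
  have hbdir : ∀ i, b.2.2 (dir i) = ∑ l, su.β l • (su.c l).2.2 (dir i) := by
    intro i
    conv_lhs => rw [su.b_eq]
    rw [Prod.snd_sum, Prod.snd_sum, Finset.sum_apply]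
    rfl
  have hperp : ∀ x, TypEq S ch d m (rx d p dir x) p → Perp (LamJ S ch d (rx d p dir x)) (m - 1) b := by
    intro x hx h0 y hy
    rw [hx.2.2 (m - 1) h0 (by omega)] at hy
    exact hP h0 y hy
  refine ⟨n, mkTwr d p dir ch (fun l => su.c (e l)) jl f sig b, hn, ?_, ?_, ?_, ?_, ?_, hY, ?_⟩
  · have hx0 := xp_mem (S := S) h hp hd
    refine ⟨fun l => ?_, ?_, h1, h2, hjl0, fun l => ?_, fun l i hi => ?_, fun x hx Psi hPsi => ?_⟩
    · change gcode d p dir ch (su.c (e l)) ∈ _
      rw [gcode_mem_FF h hp hd hS hx0, rx_xp]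
      exact su.mem _
    · change gcode d p dir ch b ∈ _
      rw [gcode_mem_FF h hp hd hS hx0, rx_xp]
      exact hb
    · change (sig l).card ≤ 1
      rw [hsig]
      beta_reduce
      split_ifs
      · exact (card_singleton _).le
      · exact (card_singleton _).le
      · exact (card_empty).le.trans (Nat.zero_le 1)
    · change i ∉ sig l at hi
      change (su.c (e l)).2.2 (dir i) = 0
      rw [hsig] at hi
      beta_reduce at hi
      rcases i with _ | _ | i
      · rw [su.suppb, if_neg]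
        intro hl
        have hl0 : l ≠ 0 := by
          rintro rfl
          rw [he] at hl
          exact su.ne hl.symm
        rw [if_neg hl0, if_pos hl] at hi
        exact hi (mem_singleton_self _)
      · rw [su.suppa, if_neg]
        intro hl
        have hl0 : l = 0 := by
          apply e.injective
          rw [he, hl]
        rw [if_pos hl0] at hi
        exact hi (mem_singleton_self _)
      · exact su.supp0 _ i
    · have hT := (hY x).1 hx
      rw [chi_gridG] at hPsi ⊢
      change S.CT _ Psi ((gridG d p dir S ch pl).ch (gcode d p dir ch b) x) = 0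
      rw [ch_gridG]
      exact (perpJ_iff_CT hS (hco x) (m - 1) (by rw [hT.2.1]; exact hb)).1 (hperp x hT) Psi hPsi
  · change sig 0 = _
    rw [hsig]
    exact if_pos rfl
  · change (su.c (e 0)).2.2 (dir (some none)) = su.e
    rw [he, su.suppa, if_pos rfl]
  · intro i hi
    change b.2.2 (dir i) = 0
    rw [hbdir]
    refine sum_eq_zero fun l _ => ?_
    rcases i with _ | _ | i
    · exact absurd rfl hi
    · rw [su.suppa]
      by_cases hl : l = su.l1
      · rw [hl, su.β_l1, zero_smul]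
      · rw [if_neg hl, smul_zero]
    · rw [su.supp0, smul_zero]
  · change b.2.2 (dir none) = su.e'
    rw [hbdir, sum_eq_single su.l0]
    · rw [su.suppb, if_pos rfl, su.β_l0, one_smul]
    · intro l _ hl
      rw [su.suppb, if_neg hl, smul_zero]
    · intro hh
      exact absurd (mem_univ _) hh
  · intro x hx
    have hT := (hY x).1 hx
    have h7 := (isTow_iff h hp hd hS hx.1 0 _).1 (psi_spec hx 0)
    have h8 := h7.1
    rw [hjl0] at h8
    change Abv S ch d (rx d p dir x) m (su.c (e 0)) _ at h8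
    rw [he, su.c_l1] at h8
    rw [FFJ_eq hS (hco x) hm (by rw [hT.2.1]; exact hb) (hperp x hT) h8]
    unfold Twr.Fab
    rw [chi_gridG]
    change S.CT _ _ ((gridG d p dir S ch pl).ch (gcode d p dir ch b) x) = _
    rw [ch_gridG]

end main

end Pool.Agent.Sm.IT2
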