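import Mathlib

/-!
Project SMITH over `F_q(t)` (MP_48b749_nt), block I (paper I9): the numerical part of Theorem I.
-/

set_option autoImplicit false

namespace Pool.Agent.Sm.INum

/-- Polynomials in `n` are small compared to `2 ^ (d / 2)`, `d ≥ ⌊(log n) ^ 3⌋`. -/
theorem small (A : ℕ) (K ε : ℝ) (hε : 0 < ε) : ∃ n0 : ℕ, 3 ≤ n0 ∧ ∀ n : ℕ, n0 ≤ n → ∀ d : ℕ,
    ⌊(Real.log n) ^ 3⌋₊ ≤ d → K * (n : ℝ) ^ A ≤ ε * (2 : ℝ) ^ (d / 2) := by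
  -- the threshold for `x = log n`
  set L : ℝ := Real.log (max K 1 / ε) with hL
  set x0 : ℝ := 3 * (A + |L| + 4) with hx0
  refine ⟨max 3 ⌈Real.exp x0⌉₊, le_max_left _ _, fun n hn d hd => ?_⟩
  have hn1 : Real.exp x0 ≤ n := (Nat.le_ceil _).trans (by exact_mod_cast (le_max_right _ _).trans hn)
  have hnpos : (0 : ℝ) < n := (Real.exp_pos _).trans_le hn1
  set x : ℝ := Real.log n with hx
  have hxx : x0 ≤ x := by
    rw [hx, Real.le_log_iff_exp_le hnpos]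
    exact hn1
  have hAL : (0 : ℝ) ≤ A + |L| := by positivity
  have hx12 : 12 ≤ x := by
    have : (12 : ℝ) ≤ x0 := by rw [hx0]; linarith
    linarith
  have hlog2 : (0.69 : ℝ) ≤ Real.log 2 := by
    have := Real.log_two_gt_d9
    linarith
  have hd1 : x ^ 3 - 1 ≤ d := by
    have h1 : x ^ 3 < ⌊x ^ 3⌋₊ + 1 := Nat.lt_floor_add_one _
    have h2 : (⌊x ^ 3⌋₊ : ℝ) ≤ d := by exact_mod_cast hd
    linarith
  have hd2 : ((d : ℝ) - 1) / 2 ≤ ((d / 2 : ℕ) : ℝ) := by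
    have h1 : d ≤ 2 * (d / 2) + 1 := by omega
    have h2 : (d : ℝ) ≤ 2 * ((d / 2 : ℕ) : ℝ) + 1 := by exact_mod_cast h1
    linarith
  have hK : 0 < max K 1 := lt_of_lt_of_le one_pos (le_max_right _ _)
  have h1 : K * (n : ℝ) ^ A ≤ max K 1 * (n : ℝ) ^ A := by
    gcongr
    exact le_max_left _ _
  refine h1.trans ?_
  have h2 : (n : ℝ) ^ A = Real.exp (A * x) := by
    rw [mul_comm, Real.exp_mul, hx, Real.exp_log hnpos, Real.rpow_natCast]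
  have h3 : max K 1 = ε * Real.exp L := by
    rw [hL, Real.exp_log (by positivity)]
    field_simp
  have h4 : (2 : ℝ) ^ (d / 2) = Real.exp (((d / 2 : ℕ) : ℝ) * Real.log 2) := by
    rw [mul_comm, Real.exp_mul, Real.exp_log (by norm_num), Real.rpow_natCast]
  rw [h2, h3, h4, mul_assoc, ← Real.exp_add]
  refine mul_le_mul_of_nonneg_left (Real.exp_le_exp.mpr ?_) hε.le
  have h5 : (x ^ 3 - 2) / 2 ≤ ((d / 2 : ℕ) : ℝ) := by linarith
  have hx3 : 0 ≤ (x ^ 3 - 2) / 2 := by nlinarith [sq_nonneg x, pow_nonneg (by linarith : (0:ℝ) ≤ x) 3]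
  have h6 : (x ^ 3 - 2) / 2 * 0.69 ≤ ((d / 2 : ℕ) : ℝ) * Real.log 2 := by
    gcongr
  refine le_trans ?_ h6
  have h7 : L ≤ |L| := le_abs_self L
  have hxpos : 0 < x := by linarith
  have h8 : 3 * (A + |L| + 4) * x ≤ x ^ 2 := by
    have : x ^ 2 = x * x := sq x
    rw [this]
    gcongr
  have h9 : x ^ 2 * 12 ≤ x ^ 3 := by
    have : x ^ 3 = x ^ 2 * x := by ring
    rw [this]
    gcongr
  have h10 : (A : ℝ) * x ≤ (A + |L| + 4) * x := by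
    gcongr
    linarith [abs_nonneg L]
  have h11 : |L| + 4 ≤ (A + |L| + 4) * x := by
    have : (|L| + 4) * 1 ≤ (A + |L| + 4) * x := by
      gcongr
      · linarith [(Nat.cast_nonneg A : (0 : ℝ) ≤ A)]
      · linarith
    linarith
  nlinarith

/-- The bound for `2 ^ t`. -/
theorem two_pow_le {n t : ℕ} (hn : 3 ≤ n) (ht : (t : ℝ) ≤ 2 * Real.log n) :
    (2 : ℝ) ^ t ≤ (n : ℝ) ^ 2 := by
  have hnpos : (0 : ℝ) < n := by positivity
  have hlog : 0 ≤ Real.log n := Real.log_nonneg (by exact_mod_cast (by omega : 1 ≤ n))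
  have h1 : (2 : ℝ) ^ t = Real.exp (t * Real.log 2) := by
    rw [mul_comm, Real.exp_mul, Real.exp_log (by norm_num), Real.rpow_natCast]
  have h2 : (n : ℝ) ^ 2 = Real.exp (2 * Real.log n) := by
    rw [mul_comm, Real.exp_mul, Real.exp_log hnpos]
    norm_cast
  rw [h1, h2]
  refine Real.exp_le_exp.mpr ?_
  have h3 : Real.log 2 ≤ 1 := by
    have := Real.log_two_lt_d9
    linarith
  have h4 : (0 : ℝ) ≤ Real.log 2 := Real.log_nonneg (by norm_num)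
  calc (t : ℝ) * Real.log 2 ≤ (2 * Real.log n) * 1 := by gcongr
    _ = _ := by ring

/-- The numerical part of Theorem I. `x` is the number of primes in a symbol class. -/
theorem main (hh a C K E0 q : ℕ) (hq : 2 ≤ q) (γ ε : ℝ) (hγ : 0 < γ) (hε : 0 < ε) :
    ∃ n0 : ℕ, 3 ≤ n0 ∧ ∀ n : ℕ, n0 ≤ n → ∀ t : ℕ, (t : ℝ) ≤ 2 * Real.log n →
    ∀ d : ℕ, ⌊(Real.log n) ^ 3⌋₊ ≤ d → 1 ≤ d → d ≤ n → ∀ r : ℕ, r ≤ E0 * n →
    ∀ x : ℝ, γ * ((q : ℝ) ^ d / (2 * d) / 2 ^ (hh + t)) ≤ x →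
    0 < x ∧ 1 / x ≤ ε ∧
    (C * ((2 : ℝ) ^ (hh + t) * K * (r + 1)) ^ a * (q : ℝ) ^ (d / 2)) ^ 2 / x ^ 2 ≤ ε := by
  set ε1 : ℝ := min ε 1 with hε1
  have hε1pos : 0 < ε1 := lt_min hε one_pos
  obtain ⟨n1, hn1, h1⟩ := small 3 (2 * 2 ^ hh / γ) ε1 hε1pos
  obtain ⟨n2, hn2, h2⟩ := small (3 * a + 3)
    (C * (2 ^ hh * K * (E0 + 1)) ^ a * (2 * 2 ^ hh) / γ) ε1 hε1pos
  refine ⟨max n1 n2, hn1.trans (le_max_left _ _), fun n hn t ht d hd hd1 hdn r hr x hx => ?_⟩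
  have hn3 : 3 ≤ n := hn1.trans ((le_max_left _ _).trans hn)
  have hnr : (1 : ℝ) ≤ n := by exact_mod_cast (by omega : 1 ≤ n)
  have htp := two_pow_le hn3 ht
  have e1 := h1 n ((le_max_left _ _).trans hn) d hd
  have e2 := h2 n ((le_max_right _ _).trans hn) d hd
  have hq0 : (0 : ℝ) < q := by positivity
  have hdpos : (0 : ℝ) < d := by exact_mod_cast hd1
  have hdn' : (d : ℝ) ≤ n := by exact_mod_cast hdn
  set y : ℝ := γ * ((q : ℝ) ^ d / (2 * d) / 2 ^ (hh + t)) with hy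
  have hypos : 0 < y := by positivity
  have hxpos : 0 < x := hypos.trans_le hx
  -- `1 / y`
  have hyi : 1 / y ≤ 2 * 2 ^ hh / γ * (n : ℝ) ^ 3 / (q : ℝ) ^ d := by
    have : 1 / y = (2 * d) * (2 ^ hh * 2 ^ t) / γ / (q : ℝ) ^ d := by
      rw [hy, pow_add]
      field_simp
    rw [this]
    have h3 : (2 * (d : ℝ)) * (2 ^ hh * 2 ^ t) / γ ≤ 2 * 2 ^ hh / γ * (n : ℝ) ^ 3 := by
      have : 2 * 2 ^ hh / γ * (n : ℝ) ^ 3 = (2 * (n : ℝ)) * (2 ^ hh * (n : ℝ) ^ 2) / γ := by ring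
      rw [this]
      gcongr
    gcongr
  have hqd : (2 : ℝ) ^ (d / 2) * (q : ℝ) ^ (d / 2) ≤ (q : ℝ) ^ d := by
    have h3 : (2 : ℝ) ^ (d / 2) ≤ (q : ℝ) ^ (d / 2) := by
      gcongr
      exact_mod_cast hq
    calc (2 : ℝ) ^ (d / 2) * (q : ℝ) ^ (d / 2) ≤ (q : ℝ) ^ (d / 2) * (q : ℝ) ^ (d / 2) := by
          gcongr
      _ = (q : ℝ) ^ (d / 2 + d / 2) := by rw [pow_add]
      _ ≤ (q : ℝ) ^ d := by
          refine pow_le_pow_right₀ (by exact_mod_cast (by omega : 1 ≤ q)) (by omega)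
  have hqq : (1 : ℝ) ≤ (q : ℝ) ^ (d / 2) := one_le_pow₀ (by exact_mod_cast (by omega : 1 ≤ q))
  refine ⟨hxpos, ?_, ?_⟩
  · have h3 : 1 / x ≤ 1 / y := by gcongr
    have h4 : 2 * 2 ^ hh / γ * (n : ℝ) ^ 3 / (q : ℝ) ^ d ≤ ε1 := by
      rw [div_le_iff₀ (by positivity)]
      refine e1.trans ?_
      gcongr
      refine le_trans ?_ hqd
      nlinarith [pow_pos (show (0 : ℝ) < 2 by norm_num) (d / 2)]
    exact (h3.trans (hyi.trans h4)).trans (min_le_left _ _)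
  · have hr' : (r : ℝ) + 1 ≤ (E0 + 1) * n := by
      have h3 : (r : ℝ) ≤ E0 * n := by exact_mod_cast hr
      linarith
    have h5 : (C : ℝ) * ((2 : ℝ) ^ (hh + t) * K * (r + 1)) ^ a ≤
        C * (2 ^ hh * K * (E0 + 1)) ^ a * (n : ℝ) ^ (3 * a) := by
      have h6 : (2 : ℝ) ^ (hh + t) * K * (r + 1) ≤ (2 ^ hh * K * (E0 + 1)) * (n : ℝ) ^ 3 := by
        have : ((2 : ℝ) ^ hh * K * (E0 + 1)) * (n : ℝ) ^ 3 =
            (2 ^ hh * (n : ℝ) ^ 2) * K * ((E0 + 1) * n) := by ring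
        rw [this, pow_add]
        gcongr
      calc (C : ℝ) * ((2 : ℝ) ^ (hh + t) * K * (r + 1)) ^ a
          ≤ C * ((2 ^ hh * K * (E0 + 1)) * (n : ℝ) ^ 3) ^ a := by gcongr
        _ = _ := by rw [mul_pow ((2 : ℝ) ^ hh * K * (E0 + 1)), ← pow_mul, ← mul_assoc]
    have h7 : C * ((2 : ℝ) ^ (hh + t) * K * (r + 1)) ^ a * (q : ℝ) ^ (d / 2) / x ≤ ε1 := by
      have h8 : C * ((2 : ℝ) ^ (hh + t) * K * (r + 1)) ^ a * (q : ℝ) ^ (d / 2) / x ≤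
          (C * (2 ^ hh * K * (E0 + 1)) ^ a * (n : ℝ) ^ (3 * a)) * (q : ℝ) ^ (d / 2) * (1 / y) := by
        rw [div_eq_mul_one_div]
        gcongr
      refine h8.trans ?_
      have h9 : (C * (2 ^ hh * K * (E0 + 1)) ^ a * (n : ℝ) ^ (3 * a)) * (q : ℝ) ^ (d / 2) *
          (1 / y) ≤ (C * (2 ^ hh * K * (E0 + 1)) ^ a * (n : ℝ) ^ (3 * a)) * (q : ℝ) ^ (d / 2) *
          (2 * 2 ^ hh / γ * (n : ℝ) ^ 3 / (q : ℝ) ^ d) := by
        gcongr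
      refine h9.trans ?_
      have h10 : (C * (2 ^ hh * K * (E0 + 1)) ^ a * (n : ℝ) ^ (3 * a)) * (q : ℝ) ^ (d / 2) *
          (2 * 2 ^ hh / γ * (n : ℝ) ^ 3 / (q : ℝ) ^ d) =
          (C * (2 ^ hh * K * (E0 + 1)) ^ a * (2 * 2 ^ hh) / γ * (n : ℝ) ^ (3 * a + 3)) *
          ((q : ℝ) ^ (d / 2) / (q : ℝ) ^ d) := by
        rw [pow_add]
        ring
      rw [h10]
      have h11 : (q : ℝ) ^ (d / 2) / (q : ℝ) ^ d ≤ 1 / (2 : ℝ) ^ (d / 2) := by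
        rw [div_le_div_iff₀ (by positivity) (by positivity), one_mul, mul_comm]
        exact hqd
      calc (C * (2 ^ hh * K * (E0 + 1)) ^ a * (2 * 2 ^ hh) / γ * (n : ℝ) ^ (3 * a + 3)) *
          ((q : ℝ) ^ (d / 2) / (q : ℝ) ^ d)
          ≤ (ε1 * (2 : ℝ) ^ (d / 2)) * (1 / (2 : ℝ) ^ (d / 2)) := by gcongr
        _ = ε1 := by field_simp
    have h12 : (C * ((2 : ℝ) ^ (hh + t) * K * (r + 1)) ^ a * (q : ℝ) ^ (d / 2)) ^ 2 / x ^ 2 =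
        (C * ((2 : ℝ) ^ (hh + t) * K * (r + 1)) ^ a * (q : ℝ) ^ (d / 2) / x) ^ 2 := by
      rw [div_pow]
    rw [h12]
    have h13 : 0 ≤ C * ((2 : ℝ) ^ (hh + t) * K * (r + 1)) ^ a * (q : ℝ) ^ (d / 2) / x := by
      positivity
    calc (C * ((2 : ℝ) ^ (hh + t) * K * (r + 1)) ^ a * (q : ℝ) ^ (d / 2) / x) ^ 2
        ≤ ε1 ^ 2 := by gcongr
      _ ≤ ε1 * 1 := by
          rw [sq]
          gcongr
          exact min_le_right _ _
      _ ≤ ε := by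
          rw [mul_one]
          exact min_le_left _ _

end Pool.Agent.Sm.INum
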