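import Pool.Agent.Lib.Sm.I.Defs

/-!
SMITH, block I: small tools (2-finite functions, homomorphisms, `ZMod 2`).
-/

set_option autoImplicit false

open Finset

namespace Pool.Agent.Sm.IT

variable {G V Pl : Type*} [Group G] [AddCommGroup V] [DistribMulAction G V] {S : Sys G V Pl}

theorem z2_cases (a : ZMod 2) : a = 0 ∨ a = 1 := by
  revert a
  decide

theorem z2_add_self (a : ZMod 2) : a + a = 0 := by
  revert a
  decide

theorem v1_add_self (a : V1) : a + a = 0 :=
  Prod.ext (z2_add_self _) (z2_add_self _)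

theorem v1_neg (a : V1) : -a = a := by
  rw [neg_eq_iff_add_eq_zero]
  exact v1_add_self a

theorem v1_sub (a b : V1) : a - b = a + b := by
  rw [sub_eq_add_neg, v1_neg]

theorem z2_sub (a b : ZMod 2) : a - b = a + b := by
  revert a b
  decide

/-! ### 2-finite functions -/

theorem tf_const (hS : S.Ok) {α : Type*} (a : α) : S.TF (fun _ : G => a) :=
  ⟨⊤, hS.top_mem, fun _ _ _ => rfl⟩

theorem tf_comp {α β : Type*} {f : G → α} (hf : S.TF f) (F : α → β) : S.TF (fun s => F (f s)) := by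
  obtain ⟨N, hN, h⟩ := hf
  exact ⟨N, hN, fun s n hn => congrArg F (h s n hn)⟩

theorem tf_comp2 (hS : S.Ok) {α β γ : Type*} {f : G → α} {g : G → β} (hf : S.TF f) (hg : S.TF g)
    (F : α → β → γ) : S.TF (fun s => F (f s) (g s)) := by
  obtain ⟨N, hN, h⟩ := hf
  obtain ⟨N', hN', h'⟩ := hg
  exact ⟨N ⊓ N', hS.inf_mem N hN N' hN', fun s n hn => congrArg₂ F (h s n hn.1) (h' s n hn.2)⟩

theorem tf_sum (hS : S.Ok) {α M : Type*} [AddCommMonoid M] (T : Finset α) (f : α → G → M)
    (hf : ∀ a ∈ T, S.TF (f a)) : S.TF (fun s => ∑ a ∈ T, f a s) := by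
  classical
  induction T using Finset.induction_on with
  | empty =>
    simp only [sum_empty]
    exact tf_const hS 0
  | insert a T ha ih =>
    simp only [sum_insert ha]
    exact tf_comp2 hS (hf a (mem_insert_self a T)) (ih fun b hb => hf b (mem_insert_of_mem hb))
      (fun x y => x + y)

theorem tfOn_of_tf {α : Type*} {f : G → α} (hf : S.TF f) (H : Subgroup G) : S.TFOn H f := by
  obtain ⟨N, hN, h⟩ := hf
  exact ⟨N, hN, fun s _ n hn _ => h s n hn⟩

/-! ### Homomorphisms -/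

section hom

variable {A : Type*} [AddCommGroup A]

theorem homG_zero (hS : S.Ok) : S.HomG (fun _ : G => (0 : A)) :=
  ⟨tf_const hS 0, fun _ _ => (add_zero 0).symm⟩

theorem homG_add (hS : S.Ok) {c d : G → A} (hc : S.HomG c) (hd : S.HomG d) :
    S.HomG (fun s => c s + d s) :=
  ⟨tf_comp2 hS hc.1 hd.1 (fun x y => x + y), fun s t => by beta_reduce; rw [hc.2, hd.2]; abel⟩

theorem homG_neg {c : G → A} (hc : S.HomG c) : S.HomG (fun s => - c s) :=
  ⟨tf_comp hc.1 (fun x => -x), fun s t => by beta_reduce; rw [hc.2]; abel⟩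

theorem homG_sub (hS : S.Ok) {c d : G → A} (hc : S.HomG c) (hd : S.HomG d) :
    S.HomG (fun s => c s - d s) :=
  ⟨tf_comp2 hS hc.1 hd.1 (fun x y => x - y), fun s t => by beta_reduce; rw [hc.2, hd.2]; abel⟩

theorem homG_sum (hS : S.Ok) {α : Type*} (T : Finset α) (f : α → G → A)
    (hf : ∀ a ∈ T, S.HomG (f a)) : S.HomG (fun s => ∑ a ∈ T, f a s) :=
  ⟨tf_sum hS T f fun a ha => (hf a ha).1, fun s t => by
    rw [← sum_add_distrib]
    exact sum_congr rfl fun a ha => (hf a ha).2 s t⟩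

theorem homG_map {B : Type*} [AddCommGroup B] {c : G → A} (hc : S.HomG c) (F : A →+ B) :
    S.HomG (fun s => F (c s)) :=
  ⟨tf_comp hc.1 F, fun s t => by beta_reduce; rw [hc.2, map_add]⟩

theorem homG_smul {c : G → ZMod 2} (hc : S.HomG c) (w : V1) : S.HomG (fun s => c s • w) :=
  ⟨tf_comp hc.1 (fun x => x • w), fun s t => by beta_reduce; rw [hc.2, add_smul]⟩

theorem homG_fst {c : G → V1} (hc : S.HomG c) : S.HomG (fun s => (c s).1) :=
  homG_map hc (AddMonoidHom.fst _ _)

theorem homG_snd {c : G → V1} (hc : S.HomG c) : S.HomG (fun s => (c s).2) :=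
  homG_map hc (AddMonoidHom.snd _ _)

theorem homG_one {c : G → A} (hc : S.HomG c) : c 1 = 0 := by
  have := hc.2 1 1
  rw [mul_one] at this
  exact left_eq_add.mp this

theorem homG_inv {c : G → A} (hc : S.HomG c) (s : G) : c s⁻¹ = - c s := by
  have := hc.2 s s⁻¹
  rw [mul_inv_cancel, homG_one hc] at this
  exact (neg_eq_of_add_eq_zero_right this.symm).symm

/-- A homomorphism to `ZMod 2` which vanishes at `sg v` and `phi v` vanishes on `D v`. -/
theorem homG_D (hS : S.Ok) {c : G → ZMod 2} (hc : S.HomG c) (v : Pl) (h1 : c (S.sg v) = 0)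
    (h2 : c (S.phi v) = 0) : ∀ s ∈ S.D v, c s = 0 :=
  hS.homD v c (tfOn_of_tf hc.1 _) (fun s _ t _ => hc.2 s t) h1 h2

/-- The same for homomorphisms to `V1`. -/
theorem homG_D_V1 (hS : S.Ok) {c : G → V1} (hc : S.HomG c) (v : Pl) (h1 : c (S.sg v) = 0)
    (h2 : c (S.phi v) = 0) : ∀ s ∈ S.D v, c s = 0 := fun s hs =>
  Prod.ext (homG_D hS (homG_fst hc) v (congrArg Prod.fst h1) (congrArg Prod.fst h2) s hs)
    (homG_D hS (homG_snd hc) v (congrArg Prod.snd h1) (congrArg Prod.snd h2) s hs)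

end hom

/-! ### Dependence of the local conditions on the twist -/

theorem zv_congr {chi chi' : G → ZMod 2} {v : Pl} (h : ∀ s ∈ S.D v, chi s = chi' s) {c : G → V}
    (hc : S.Zv chi v c) : S.Zv chi' v c := by
  obtain ⟨Q, hQ⟩ := hc
  refine ⟨Q, fun s hs => ?_⟩
  rw [hQ s hs]
  unfold dl tw
  rw [h s hs]

theorem wl_congr {chi chi' : G → ZMod 2} {v : Pl} (hS : S.Ok) (h : ∀ s ∈ S.D v, chi s = chi' s)
    {x : V1 × V1} (hx : x ∈ S.Wl chi v) : x ∈ S.Wl chi' v := by
  obtain ⟨Q, h1, h2, h3⟩ := hx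
  have e : ∀ s ∈ S.D v, dl chi' Q s = dl chi Q s := fun s hs => by
    unfold dl tw
    rw [h s hs]
  exact ⟨Q, fun s hs => by rw [e s hs, h1 s hs], by rw [e _ (hS.sg_mem v), h2],
    by rw [e _ (hS.phi_mem v), h3]⟩

theorem wl_congr_iff {chi chi' : G → ZMod 2} {v : Pl} (hS : S.Ok)
    (h : ∀ s ∈ S.D v, chi s = chi' s) {x : V1 × V1} : x ∈ S.Wl chi v ↔ x ∈ S.Wl chi' v :=
  ⟨wl_congr hS h, wl_congr hS fun s hs => (h s hs).symm⟩

/-! ### The torsion cocycles -/

/-- For `w ∈ V1` there is a homomorphism `κ : G → V1`, unramified at the good places, such that the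
torsion cocycle of `w` for the twist `chi` is `κ + chi ⊗ w`. At a good place where `chi` is ramified
the local Kummer group consists of the `(w, κ (phi v) + chi (phi v) w)`. -/
theorem exists_kap0 (hS : S.Ok) (w : V1) : ∃ κ : G → V1, S.HomG κ ∧
    (∀ v ∈ S.good, κ (S.sg v) = 0) ∧
    (∃ z : V, (2 : ℕ) • z = S.iota w ∧
      ∀ (chi : G → ZMod 2) (s : G), dl chi z s = S.iota (κ s + chi s • w)) ∧
    ∀ (chi : G → ZMod 2), ∀ v ∈ S.good, chi (S.sg v) = 1 → ∀ y : V1,
      ((w, y) ∈ S.Wl chi v ↔ y = κ (S.phi v) + chi (S.phi v) • w) := by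
  obtain ⟨z, hz⟩ := hS.half (S.iota w)
  have h2 : ∀ a : V1, (2 : ℕ) • S.iota a = 0 := fun a => by
    rw [← map_nsmul, two_nsmul, v1_add_self, map_zero]
  have h4 : (4 : ℕ) • z = 0 := by
    rw [show (4 : ℕ) = 2 * 2 from rfl, mul_nsmul, hz, h2]
  have hneg : ∀ a : V1, - S.iota a = S.iota a := fun a => by rw [← map_neg, v1_neg]
  -- half points of the same torsion point
  have key : ∀ (Q : V), (2 : ℕ) • Q = S.iota w → ∀ s : G, s • Q - Q = s • z - z := by
    intro Q hQ s
    have h5 : (2 : ℕ) • (Q - z) = 0 := by rw [smul_sub, hQ, hz, sub_self]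
    obtain ⟨a, ha⟩ := hS.iota_range _ h5
    have h6 : Q = S.iota a + z := by rw [ha]; abel
    rw [h6, smul_add, hS.iota_fix]
    abel
  have hs2 : ∀ s : G, (2 : ℕ) • (s • z - z) = 0 := by
    intro s
    rw [smul_sub, hz, ← smul_comm s (2 : ℕ) z, hz, hS.iota_fix, sub_self]
  choose κ hκ using fun s => hS.iota_range _ (hs2 s)
  have hdl : ∀ (chi : G → ZMod 2) (Q : V), (2 : ℕ) • Q = S.iota w → ∀ s : G,
      dl chi Q s = S.iota (κ s + chi s • w) := by
    intro chi Q hQ s
    unfold dl tw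
    rcases z2_cases (chi s) with h | h
    · rw [h, show sgn 0 = 1 from rfl, one_smul, zero_smul, add_zero, hκ, key Q hQ]
    · rw [h, show sgn 1 = -1 from rfl, neg_smul, one_smul, one_smul, map_add, hκ, ← key Q hQ s,
        ← hneg w, ← hQ]
      have h7 : s • Q - Q = -(s • Q - Q) := by
        rw [key Q hQ s, ← hκ, hneg]
      rw [h7, two_nsmul]
      abel
  have hhom : ∀ s t, κ (s * t) = κ s + κ t := by
    intro s t
    apply hS.iota_inj
    rw [map_add, hκ, hκ s, hκ t]
    have h8 : s • (t • z - z) = t • z - z := by rw [← hκ t, hS.iota_fix]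
    rw [smul_sub, ← mul_smul] at h8
    rw [← h8]
    abel
  refine ⟨κ, ⟨?_, hhom⟩, ?_, ⟨z, hz, fun chi s => hdl chi z hz s⟩, ?_⟩
  · obtain ⟨N, hN, h⟩ := hS.act_fin 2
    refine ⟨N, hN, fun s n hn => ?_⟩
    rw [hhom]
    have h9 : κ n = 0 := by
      apply hS.iota_inj
      rw [hκ, map_zero, h n hn z (by rw [show (2 : ℕ) ^ 2 = 4 from rfl, h4]), sub_self]
    rw [h9, add_zero]
  · intro v hv
    apply hS.iota_inj
    rw [hκ, map_zero, hS.good_triv v hv, sub_self]
  · intro chi v hv hchi y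
    constructor
    · rintro ⟨Q, -, hQ2, hQ3⟩
      have h10 : (2 : ℕ) • Q = S.iota w := by
        have h11 : dl chi Q (S.sg v) = -((2 : ℕ) • Q) := by
          unfold dl tw
          rw [hchi, show sgn 1 = -1 from rfl, neg_smul, one_smul, hS.good_triv v hv, two_nsmul]
          abel
        rw [h11] at hQ2
        rw [← neg_neg ((2 : ℕ) • Q), hQ2]
        exact hneg w
      apply hS.iota_inj
      rw [← hQ3, hdl chi Q h10]
    · rintro rfl
      refine ⟨z, fun s _ => ?_, ?_, hdl chi z hz _⟩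
      · rw [hdl chi z hz, h2]
      · rw [hdl chi z hz, hchi, one_smul]
        have h12 : κ (S.sg v) = 0 := by
          apply hS.iota_inj
          rw [hκ, map_zero, hS.good_triv v hv, sub_self]
        rw [h12, zero_add]

end Pool.Agent.Sm.IT
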