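import Mathlib

/-!
Project SMITH over `F_q(t)` (MP_48b749_nt), block I: the group form of the top cochain
(paper I6, H8). Pure group theory.

`Uni ι G A`: characters `dl i : G → ZMod 2` (`i : ι`) and functions `Phi T : G → A`
(`T : Finset ι`) with `Phi T (s t) = Phi T s + ∑_{W ⊆ T} (∏_{i ∈ W} dl i s) Phi (T \ W) t`.
In the application `ι` is the set of the `k` unsupported directions, `Phi T` is the alternating sum
over the face with directions `T ∪ {ia}` and `Phi univ` is `Th`.
-/

set_option autoImplicit false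

namespace Pool.Agent.Sm

/-- Characters and cochains on a group. -/
structure Uni (ι G A : Type*) where
  dl : ι → G → ZMod 2
  Phi : Finset ι → G → A

/-- Iterated commutator `[...[[g, t₁], t₂], ..., tₙ]`. -/
def iterC {G : Type*} [Group G] (g : G) (l : List G) : G :=
  l.foldl (fun s t => s * t * s⁻¹ * t⁻¹) g

namespace Uni

variable {ι G A : Type*} [DecidableEq ι] [Group G] [AddCommGroup A] [Module (ZMod 2) A]

/-- The cocycle relations. -/
structure Is (U : Uni ι G A) : Prop where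
  hdl : ∀ i s t, U.dl i (s * t) = U.dl i s + U.dl i t
  coc : ∀ T s t, U.Phi T (s * t) =
    U.Phi T s + ∑ W ∈ T.powerset, (∏ i ∈ W, U.dl i s) • U.Phi (T \ W) t

variable {U : Uni ι G A}

theorem Is.dl_one (h : U.Is) (i : ι) : U.dl i 1 = 0 := by
  have := h.hdl i 1 1
  rw [mul_one] at this
  simpa using this

theorem Is.dl_inv (h : U.Is) (i : ι) (s : G) : U.dl i s⁻¹ = - U.dl i s := by
  have := h.hdl i s s⁻¹
  rw [mul_inv_cancel, h.dl_one i] at this
  exact eq_neg_of_add_eq_zero_right this.symm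

theorem Is.mulK (h : U.Is) {s : G} (hs : ∀ i, U.dl i s = 0) (T : Finset ι) (t : G) :
    U.Phi T (s * t) = U.Phi T s + U.Phi T t := by
  rw [h.coc T s t]
  congr 1
  rw [Finset.sum_eq_single ∅]
  · simp
  · intro W _ hW
    obtain ⟨i, hi⟩ := Finset.nonempty_iff_ne_empty.mpr hW
    rw [Finset.prod_eq_zero hi (hs i), zero_smul]
  · intro hh
    exact absurd (Finset.empty_mem_powerset T) hh

theorem Is.Phi_one (h : U.Is) (T : Finset ι) : U.Phi T 1 = 0 := by
  have := h.mulK (s := 1) (fun i => h.dl_one i) T 1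
  rw [mul_one] at this
  simpa using this

theorem Is.Phi_inv (h : U.Is) {s : G} (hs : ∀ i, U.dl i s = 0) (T : Finset ι) :
    U.Phi T s⁻¹ = U.Phi T s := by
  have h1 := h.mulK hs T s⁻¹
  rw [mul_inv_cancel, h.Phi_one T] at h1
  have h2 : U.Phi T s + U.Phi T s = 0 := by
    have : (2 : ZMod 2) • U.Phi T s = 0 := by
      rw [show (2 : ZMod 2) = 0 from rfl, zero_smul]
    rwa [two_smul] at this
  have h3 : U.Phi T s + U.Phi T s⁻¹ = U.Phi T s + U.Phi T s := by rw [← h1, h2]
  exact add_left_cancel h3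

/-- The subgroup where all characters vanish and all `Phi T`, `T ≠ univ`, vanish. -/
def K0 [Fintype ι] (U : Uni ι G A) (h : U.Is) : Subgroup G where
  carrier := {s | (∀ i, U.dl i s = 0) ∧ ∀ T, T ≠ Finset.univ → U.Phi T s = 0}
  one_mem' := ⟨fun i => h.dl_one i, fun T _ => h.Phi_one T⟩
  mul_mem' := by
    rintro a b ⟨ha, ha'⟩ ⟨hb, hb'⟩
    refine ⟨fun i => by rw [h.hdl, ha, hb, add_zero], fun T hT => ?_⟩
    rw [h.mulK ha, ha' T hT, hb' T hT, add_zero]
  inv_mem' := by
    rintro a ⟨ha, ha'⟩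
    refine ⟨fun i => by rw [h.dl_inv, ha, neg_zero], fun T hT => ?_⟩
    rw [h.Phi_inv ha, ha' T hT]

/-- The subgroup where everything vanishes. -/
def K1 (U : Uni ι G A) (h : U.Is) : Subgroup G where
  carrier := {s | (∀ i, U.dl i s = 0) ∧ ∀ T, U.Phi T s = 0}
  one_mem' := ⟨fun i => h.dl_one i, fun T => h.Phi_one T⟩
  mul_mem' := by
    rintro a b ⟨ha, ha'⟩ ⟨hb, hb'⟩
    refine ⟨fun i => by rw [h.hdl, ha, hb, add_zero], fun T => ?_⟩
    rw [h.mulK ha, ha' T, hb' T, add_zero]
  inv_mem' := by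
    rintro a ⟨ha, ha'⟩
    refine ⟨fun i => by rw [h.dl_inv, ha, neg_zero], fun T => ?_⟩
    rw [h.Phi_inv ha, ha' T]

theorem Is.dl_conj (h : U.Is) (i : ι) (s t : G) : U.dl i (t * s * t⁻¹) = U.dl i s := by
  rw [h.hdl, h.hdl, h.dl_inv]
  abel

/-- Conjugation formula. -/
theorem Is.conj (h : U.Is) {s : G} (hs : ∀ i, U.dl i s = 0) (T : Finset ι) (t : G) :
    U.Phi T (t * s * t⁻¹) = ∑ W ∈ T.powerset, (∏ i ∈ W, U.dl i t) • U.Phi (T \ W) s := by
  have h1 : U.Phi T (t * s * t⁻¹ * t) = U.Phi T (t * s * t⁻¹) + U.Phi T t :=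
    h.mulK (fun i => by rw [h.dl_conj, hs]) T t
  have h2 : t * s * t⁻¹ * t = t * s := by group
  rw [h2, h.coc T t s] at h1
  rw [add_comm] at h1
  exact (add_right_cancel h1).symm

theorem Is.conj_K0 [Fintype ι] (h : U.Is) {s : G} (hs : s ∈ U.K0 h) (t : G) :
    t * s * t⁻¹ ∈ U.K0 h ∧ U.Phi Finset.univ (t * s * t⁻¹) = U.Phi Finset.univ s := by
  obtain ⟨h1, h2⟩ := hs
  have key : ∀ T : Finset ι, U.Phi T (t * s * t⁻¹) = U.Phi T s := by
    intro T
    rw [h.conj h1 T t, Finset.sum_eq_single ∅]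
    · simp
    · intro W hW hW0
      rw [h2 (T \ W), smul_zero]
      intro hh
      obtain ⟨i, hi⟩ := Finset.nonempty_iff_ne_empty.mpr hW0
      have : i ∈ T \ W := by rw [hh]; exact Finset.mem_univ i
      exact (Finset.mem_sdiff.mp this).2 hi
    · intro hh
      exact absurd (Finset.empty_mem_powerset T) hh
  refine ⟨⟨fun i => by rw [h.dl_conj, h1], fun T hT => by rw [key, h2 T hT]⟩, key _⟩

instance K1_normal (U : Uni ι G A) (h : U.Is) : (U.K1 h).Normal where
  conj_mem := by
    rintro s ⟨h1, h2⟩ t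
    refine ⟨fun i => by rw [h.dl_conj, h1], fun T => ?_⟩
    rw [h.conj h1 T t]
    apply Finset.sum_eq_zero
    intro W _
    rw [h2, smul_zero]

/-- Commutator formula. -/
theorem Is.comm (h : U.Is) {s : G} (hs : ∀ i, U.dl i s = 0) (T : Finset ι) (t : G) :
    U.Phi T (s * t * s⁻¹ * t⁻¹) =
      ∑ W ∈ T.powerset.erase ∅, (∏ i ∈ W, U.dl i t) • U.Phi (T \ W) s := by
  have h1 : s * t * s⁻¹ * t⁻¹ = s * (t * s⁻¹ * t⁻¹) := by group
  have hs' : ∀ i, U.dl i s⁻¹ = 0 := fun i => by rw [h.dl_inv, hs, neg_zero]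
  rw [h1, h.mulK hs, h.conj hs' T t, ← Finset.add_sum_erase _ _ (Finset.empty_mem_powerset T)]
  simp only [Finset.prod_empty, one_smul, Finset.sdiff_empty]
  rw [h.Phi_inv hs, ← add_assoc]
  have h2 : U.Phi T s + U.Phi T s = 0 := by
    have : (2 : ZMod 2) • U.Phi T s = 0 := by
      rw [show (2 : ZMod 2) = 0 from rfl, zero_smul]
    rwa [two_smul] at this
  rw [h2, zero_add]
  refine Finset.sum_congr rfl fun W _ => ?_
  rw [h.Phi_inv hs]

theorem Is.dl_comm (h : U.Is) (i : ι) (s t : G) : U.dl i (s * t * s⁻¹ * t⁻¹) = 0 := by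
  rw [h.hdl, h.hdl, h.hdl, h.dl_inv, h.dl_inv]
  abel

/-- Commutator with an element seen by one character only. -/
theorem Is.comm_one (h : U.Is) {s : G} (hs : ∀ i, U.dl i s = 0) (T : Finset ι) {t : G} {i : ι}
    (ht : ∀ l, l ≠ i → U.dl l t = 0) :
    U.Phi T (s * t * s⁻¹ * t⁻¹) = if i ∈ T then U.dl i t • U.Phi (T \ {i}) s else 0 := by
  rw [h.comm hs T t]
  split_ifs with hi
  · rw [Finset.sum_eq_single {i}]
    · simp
    · intro W hW hWi
      rw [Finset.mem_erase, Finset.mem_powerset] at hW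
      obtain ⟨l, hl⟩ := Finset.nonempty_iff_ne_empty.mpr hW.1
      by_cases hli : ∃ l ∈ W, l ≠ i
      · obtain ⟨l, hl, hli⟩ := hli
        rw [Finset.prod_eq_zero hl (ht l hli), zero_smul]
      · push Not at hli
        exact absurd (Finset.eq_singleton_iff_unique_mem.mpr
          ⟨(hli l hl) ▸ hl, hli⟩) hWi
    · intro hh
      exfalso
      apply hh
      rw [Finset.mem_erase, Finset.mem_powerset]
      exact ⟨Finset.singleton_ne_empty i, by simpa using hi⟩
  · apply Finset.sum_eq_zero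
    intro W hW
    rw [Finset.mem_erase, Finset.mem_powerset] at hW
    obtain ⟨l, hl⟩ := Finset.nonempty_iff_ne_empty.mpr hW.1
    have : l ≠ i := fun hh => hi (hh ▸ hW.2 hl)
    rw [Finset.prod_eq_zero hl (ht l this), zero_smul]

/-- Iterated commutators: characters. -/
theorem Is.iter_dl (h : U.Is) {g : G} (hg : ∀ i, U.dl i g = 0) (l : List G) (i : ι) :
    U.dl i (iterC g l) = 0 := by
  induction l generalizing g with
  | nil => exact hg i
  | cons t l ih =>
    exact ih (g := g * t * g⁻¹ * t⁻¹) (fun i => h.dl_comm i g t)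

/-- Iterated commutators: the values of the cochains. -/
theorem Is.iter (h : U.Is) {g : G} (hg : ∀ i, U.dl i g = 0) {sg : ι → G}
    (hsg : ∀ i l, l ≠ i → U.dl l (sg i) = 0) (L : List ι) (hL : L.Nodup) (T : Finset ι) :
    U.Phi T (iterC g (L.map sg)) =
      if L.toFinset ⊆ T then (∏ i ∈ L.toFinset, U.dl i (sg i)) • U.Phi (T \ L.toFinset) g
      else 0 := by
  induction L generalizing g T with
  | nil => simp [iterC]
  | cons i L ih =>
    rw [List.nodup_cons] at hL
    have h1 : iterC g ((i :: L).map sg) = iterC (g * sg i * g⁻¹ * (sg i)⁻¹) (L.map sg) := rfl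
    rw [h1, ih (fun l => h.dl_comm l g (sg i)) hL.2 T]
    have hiL : i ∉ L.toFinset := by rw [List.mem_toFinset]; exact hL.1
    rw [List.toFinset_cons]
    have hins : insert i L.toFinset ⊆ T ↔ i ∈ T ∧ L.toFinset ⊆ T := Finset.insert_subset_iff
    by_cases hLT : L.toFinset ⊆ T
    · rw [if_pos hLT, h.comm_one hg _ (hsg i)]
      by_cases hi : i ∈ T
      · rw [if_pos (Finset.mem_sdiff.mpr ⟨hi, hiL⟩), if_pos (hins.mpr ⟨hi, hLT⟩),
          Finset.prod_insert hiL, smul_smul, mul_comm]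
        congr 2
        ext x
        simp only [Finset.mem_sdiff, Finset.mem_singleton, Finset.mem_insert]
        tauto
      · rw [if_neg (fun hh => hi (Finset.mem_sdiff.mp hh).1),
          if_neg (fun hh => hi (hins.mp hh).1), smul_zero]
    · rw [if_neg hLT, if_neg (fun hh => hLT (hins.mp hh).2)]

/-- Iterated commutators over all directions. -/
theorem Is.iter_univ [Fintype ι] (h : U.Is) {g : G} (hg : ∀ i, U.dl i g = 0) {sg : ι → G}
    (hsg : ∀ i l, l ≠ i → U.dl l (sg i) = 0) :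
    iterC g (Finset.univ.toList.map sg) ∈ U.K0 h ∧
      U.Phi Finset.univ (iterC g (Finset.univ.toList.map sg)) =
        (∏ i, U.dl i (sg i)) • U.Phi ∅ g := by
  have h1 := fun T => h.iter hg hsg Finset.univ.toList (Finset.nodup_toList _) T
  simp only [Finset.toList_toFinset] at h1
  refine ⟨⟨fun i => h.iter_dl hg _ i, fun T hT => ?_⟩, ?_⟩
  · rw [h1 T, if_neg]
    intro hh
    exact hT (Finset.univ_subset_iff.mp hh)
  · rw [h1 Finset.univ, if_pos (Finset.Subset.refl _), Finset.sdiff_self]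

omit [DecidableEq ι] in
/-- The iterated commutator lies in the commutator subgroup. -/
theorem iterC_mem [Fintype ι] [Nonempty ι] (g : G) (sg : ι → G) :
    iterC g (Finset.univ.toList.map sg) ∈ commutator G := by
  have key : ∀ (l : List G) (g : G), g ∈ commutator G → iterC g l ∈ commutator G := by
    intro l
    induction l with
    | nil => intro g hg; exact hg
    | cons t l ih =>
      intro g _
      refine ih (g * t * g⁻¹ * t⁻¹) ?_
      exact Subgroup.commutator_mem_commutator (Subgroup.mem_top g) (Subgroup.mem_top t)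
  cases hl : (Finset.univ : Finset ι).toList with
  | nil =>
    exfalso
    rw [Finset.toList_eq_nil] at hl
    exact Finset.univ_nonempty.ne_empty hl
  | cons i L =>
    refine key (L.map sg) (g * sg i * g⁻¹ * (sg i)⁻¹) ?_
    exact Subgroup.commutator_mem_commutator (Subgroup.mem_top g) (Subgroup.mem_top (sg i))

/-- The class function attached to `U` and the functional `lam`. -/
noncomputable def Kt [Fintype ι] (U : Uni ι G A) (lam : A →+ ZMod 2) (s : G) : ℝ :=
  open Classical in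
  if (∀ i, U.dl i s = 0) ∧ ∀ T, T ≠ Finset.univ → U.Phi T s = 0 then
    (if lam (U.Phi Finset.univ s) = 0 then 1 else -1) else 0

omit [Group G] [Module (ZMod 2) A] in
theorem Kt_abs [Fintype ι] (U : Uni ι G A) (lam : A →+ ZMod 2) (s : G) : |U.Kt lam s| ≤ 1 := by
  unfold Kt
  split_ifs <;> simp

theorem Is.Kt_mem [Fintype ι] (h : U.Is) (lam : A →+ ZMod 2) {s : G} (hs : s ∈ U.K0 h) :
    U.Kt lam s = if lam (U.Phi Finset.univ s) = 0 then 1 else -1 := by
  unfold Kt
  exact if_pos hs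

theorem Is.Kt_not_mem [Fintype ι] (h : U.Is) (lam : A →+ ZMod 2) {s : G} (hs : s ∉ U.K0 h) :
    U.Kt lam s = 0 := by
  unfold Kt
  exact if_neg hs

theorem Is.Kt_conj [Fintype ι] (h : U.Is) (lam : A →+ ZMod 2) (s t : G) :
    U.Kt lam (t * s * t⁻¹) = U.Kt lam s := by
  by_cases hs : s ∈ U.K0 h
  · obtain ⟨h1, h2⟩ := h.conj_K0 hs t
    rw [h.Kt_mem lam hs, h.Kt_mem lam h1, h2]
  · have h3 : t * s * t⁻¹ ∉ U.K0 h := by
      intro hh
      apply hs
      have := (h.conj_K0 hh t⁻¹).1
      have h4 : t⁻¹ * (t * s * t⁻¹) * t⁻¹⁻¹ = s := by group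
      rwa [h4] at this
    rw [h.Kt_not_mem lam hs, h.Kt_not_mem lam h3]

/-- Multiplication by an element of `K0`. -/
theorem Is.Kt_mul [Fintype ι] (h : U.Is) (lam : A →+ ZMod 2) (s : G) {g : G}
    (hg : g ∈ U.K0 h) :
    U.Kt lam (s * g) =
      (if lam (U.Phi Finset.univ g) = 0 then 1 else -1) * U.Kt lam s := by
  by_cases hs : s ∈ U.K0 h
  · have h1 : s * g ∈ U.K0 h := mul_mem hs hg
    rw [h.Kt_mem lam hs, h.Kt_mem lam h1, h.mulK hs.1, map_add]
    generalize lam (U.Phi Finset.univ s) = x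
    generalize lam (U.Phi Finset.univ g) = y
    have h2 : ∀ x y : ZMod 2, (if x + y = 0 then (1 : ℝ) else -1) =
        (if y = 0 then 1 else -1) * (if x = 0 then 1 else -1) := by
      intro x y
      have hz : ∀ z : ZMod 2, z = 0 ∨ z = 1 := by decide
      have hx := hz x
      have hy := hz y
      rcases hx with rfl | rfl <;> rcases hy with rfl | rfl
      · simp
      · simp
      · simp
      · have : (1 : ZMod 2) + 1 = 0 := rfl
        simp [this]
    exact h2 x y
  · have h3 : s * g ∉ U.K0 h := by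
      intro hh
      apply hs
      have := mul_mem hh (inv_mem hg)
      rwa [mul_inv_cancel_right] at this
    rw [h.Kt_not_mem lam hs, h.Kt_not_mem lam h3, mul_zero]

theorem Is.Kt_K1 [Fintype ι] (h : U.Is) (lam : A →+ ZMod 2) (s : G) {g : G}
    (hg : g ∈ U.K1 h) : U.Kt lam (s * g) = U.Kt lam s := by
  rw [h.Kt_mul lam s (g := g) ⟨hg.1, fun T _ => hg.2 T⟩, hg.2, map_zero, if_pos rfl, one_mul]

/-- The fourth powers lie in `K1`. -/
theorem Is.pow_four (h : U.Is) (s : G) : s ^ 4 ∈ U.K1 h := by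
  have h0 : ∀ a : A, a + a = 0 := by
    intro a
    have : (2 : ZMod 2) • a = 0 := by
      rw [show (2 : ZMod 2) = 0 from rfl, zero_smul]
    rwa [two_smul] at this
  have h1 : ∀ i, U.dl i (s * s) = 0 := by
    intro i
    rw [h.hdl]
    generalize U.dl i s = x
    fin_cases x <;> rfl
  have h2 : s ^ 4 = (s * s) * (s * s) := by
    rw [show (4 : ℕ) = 2 + 2 from rfl, pow_add, pow_two]
  rw [h2]
  refine ⟨fun i => by rw [h.hdl, h1, add_zero], fun T => ?_⟩
  rw [h.mulK h1, h0]

/-- Two elements with the same values differ by an element of `K1`. -/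
theorem Is.mem_K1 (h : U.Is) {s t : G} (h1 : ∀ i, U.dl i s = U.dl i t)
    (h2 : ∀ T, U.Phi T s = U.Phi T t) : s⁻¹ * t ∈ U.K1 h := by
  have hd : ∀ i, U.dl i (s⁻¹ * t) = 0 := by
    intro i
    rw [h.hdl, h.dl_inv, h1 i]
    abel
  refine ⟨hd, fun T => ?_⟩
  induction T using Finset.strongInduction with
  | H T ih =>
    have e1 := h.coc T s (s⁻¹ * t)
    rw [mul_inv_cancel_left, ← h2 T] at e1
    have e2 : ∑ W ∈ T.powerset, (∏ i ∈ W, U.dl i s) • U.Phi (T \ W) (s⁻¹ * t) =
        U.Phi T (s⁻¹ * t) := by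
      rw [Finset.sum_eq_single ∅]
      · simp
      · intro W hW hW0
        rw [ih (T \ W), smul_zero]
        rw [Finset.mem_powerset] at hW
        exact Finset.sdiff_ssubset hW (Finset.nonempty_iff_ne_empty.mpr hW0)
      · intro hh
        exact absurd (Finset.empty_mem_powerset T) hh
    rw [e2] at e1
    exact (add_eq_left.mp e1.symm)

end Uni

end Pool.Agent.Sm
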